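import Mathlib

/-!
# Counting ideals
-/

set_option autoImplicit false

namespace Pool.Agent.H443.NF

open NumberField IsDedekindDomain Finset Filter Topology

section
variable (K : Type*) [Field K] [NumberField K]

/-- the nonzero ideals of norm `≤ x` -/
noncomputable def E (x : ℕ) : Finset (Ideal (𝓞 K)) := by
  classical
  exact ((Ideal.finite_setOfPred_absNorm_le (S := 𝓞 K) x).toFinset).filter (fun I => I ≠ ⊥)

variable {K}

theorem mem_E {x : ℕ} {I : Ideal (𝓞 K)} : I ∈ E K x ↔ Ideal.absNorm I ≤ x ∧ I ≠ ⊥ := by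
  classical
  unfold E
  rw [Finset.mem_filter, Set.Finite.mem_toFinset]
  rfl

theorem card_E (x : ℕ) : Nat.card {I : nonZeroDivisors (Ideal (𝓞 K)) //
    (Ideal.absNorm (I : Ideal (𝓞 K)) : ℝ) ≤ (x : ℝ)} = (E K x).card := by
  classical
  have h0 : (E K x).card = Nat.card (E K x : Set (Ideal (𝓞 K))) := by
    rw [Nat.card_coe_set_eq, Set.ncard_coe_finset]
  rw [h0]
  refine Nat.card_congr ?_
  refine
    { toFun := fun I => ⟨I.1.1, ?_⟩
      invFun := fun I => ⟨⟨I.1, ?_⟩, ?_⟩
      left_inv := ?_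
      right_inv := ?_ }
  · have h1 := I.2
    have h2 : Ideal.absNorm (I.1 : Ideal (𝓞 K)) ≤ x := by exact_mod_cast h1
    exact mem_coe.2 (mem_E.2 ⟨h2, nonZeroDivisors.coe_ne_zero I.1⟩)
  · exact mem_nonZeroDivisors_of_ne_zero (mem_E.1 (mem_coe.1 I.2)).2
  · have := (mem_E.1 (mem_coe.1 I.2)).1
    show (Ideal.absNorm I.1 : ℝ) ≤ x
    exact_mod_cast this
  · intro I; rfl
  · intro I; rfl

variable (K)

theorem E_bounds : ∃ c C : ℝ, 0 < c ∧ 0 < C ∧ (∀ x : ℕ, ((E K x).card : ℝ) ≤ C * x) ∧
    ∃ x₀ : ℕ, ∀ x ≥ x₀, c * x ≤ (E K x).card := by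
  set κ : ℝ := ((2 ^ InfinitePlace.nrRealPlaces K * (2 * Real.pi) ^ InfinitePlace.nrComplexPlaces K *
    Units.regulator K * classNumber K) /
        (Units.torsionOrder K * Real.sqrt |discr K|)) with hκ
  have hκ0 : 0 < κ := by
    rw [hκ]
    have h1 : 0 < Units.regulator K := Units.regulator_pos K
    have h2 : 0 < classNumber K := by
      rw [classNumber]
      exact Fintype.card_pos
    have h3 : 0 < Units.torsionOrder K := Units.torsionOrder_pos K
    have h4 : (0 : ℝ) < |((discr K : ℤ) : ℝ)| := by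
      have := discr_ne_zero K
      exact abs_pos.2 (by exact_mod_cast this)
    have h5 : 0 < Real.sqrt |((discr K : ℤ) : ℝ)| := Real.sqrt_pos.2 h4
    positivity
  have hlim := (Ideal.tendsto_norm_le_div_atTop₀ K).comp tendsto_natCast_atTop_atTop
  have hlim' : Tendsto (fun x : ℕ => ((E K x).card : ℝ) / x) atTop (𝓝 κ) := by
    refine hlim.congr ?_
    intro x
    simp only [Function.comp_apply]
    rw [card_E]
  obtain ⟨C, hC⟩ := hlim'.bddAbove_range
  refine ⟨κ / 2, max C 1, by linarith, by positivity, ?_, ?_⟩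
  · intro x
    rcases Nat.eq_zero_or_pos x with h | h
    · subst h
      have : E K 0 = ∅ := by
        rw [Finset.eq_empty_iff_forall_notMem]
        intro I hI
        rw [mem_E] at hI
        have h1 := Ideal.absNorm_eq_zero_iff.1 (Nat.le_zero.1 hI.1)
        exact hI.2 h1
      rw [this]
      simp
    · have hx : (0 : ℝ) < x := by exact_mod_cast h
      have h1 := hC ⟨x, rfl⟩
      simp only at h1
      rw [div_le_iff₀ hx] at h1
      refine h1.trans ?_
      exact mul_le_mul_of_nonneg_right (le_max_left _ _) hx.le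
  · have h1 := hlim'.eventually (lt_mem_nhds (show κ / 2 < κ by linarith))
    obtain ⟨x₀, hx₀⟩ := Filter.eventually_atTop.1 h1
    refine ⟨max x₀ 1, fun x hx => ?_⟩
    have h2 := hx₀ x (le_trans (le_max_left _ _) hx)
    have hx1 : 1 ≤ x := le_trans (le_max_right _ _) hx
    have hx0 : (0 : ℝ) < x := by exact_mod_cast (by omega : 0 < x)
    rw [lt_div_iff₀ hx0] at h2
    exact h2.le

end

end Pool.Agent.H443.NF
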