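import Mathlib
import Pool.Agent.H443.NF.Cnt

/-!
# The sum of the reciprocals of the norms of the prime ideals diverges
-/

set_option autoImplicit false

namespace Pool.Agent.H443.NF

open NumberField IsDedekindDomain Finset Filter Topology UniqueFactorizationMonoid

variable (K : Type*) [Field K] [NumberField K]

theorem two_le_absNorm (v : HeightOneSpectrum (𝓞 K)) : 2 ≤ Ideal.absNorm v.asIdeal := by
  have h0 : Ideal.absNorm v.asIdeal ≠ 0 := by
    intro h
    exact v.ne_bot (Ideal.absNorm_eq_zero_iff.1 h)
  have h1 : Ideal.absNorm v.asIdeal ≠ 1 := by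
    intro h
    exact v.isPrime.ne_top (Ideal.absNorm_eq_one_iff.1 h)
  omega

/-- number of prime factors -/
theorem pow_card_le {I : Ideal (𝓞 K)} (hI : I ≠ ⊥) :
    2 ^ (Multiset.card (normalizedFactors I)) ≤ Ideal.absNorm I := by
  have h1 : (normalizedFactors I).prod = I := by
    have := prod_normalizedFactors hI
    rwa [associated_iff_eq] at this
  have h2 : Ideal.absNorm I = ((normalizedFactors I).map Ideal.absNorm).prod := by
    conv_lhs => rw [← h1]
    rw [map_multiset_prod]
  rw [h2]
  have h3 : ∀ s : Multiset (Ideal (𝓞 K)), (∀ P ∈ s, 2 ≤ Ideal.absNorm P) →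
      2 ^ (Multiset.card s) ≤ (s.map Ideal.absNorm).prod := by
    intro s
    induction s using Multiset.induction_on with
    | empty => intro _; simp
    | cons a s ih =>
      intro h
      rw [Multiset.card_cons, Multiset.map_cons, Multiset.prod_cons, pow_succ']
      exact Nat.mul_le_mul (h a (Multiset.mem_cons_self _ _))
        (ih fun P hP => h P (Multiset.mem_cons_of_mem hP))
  apply h3
  intro P hP
  have h4 := prime_of_normalized_factor P hP
  exact two_le_absNorm K ⟨P, Ideal.isPrime_of_prime h4, h4.ne_zero⟩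

open Classical in
theorem smooth_card (S : Finset (HeightOneSpectrum (𝓞 K))) (m : ℕ) :
    ((E K (2 ^ m)).filter fun I => ∀ v : HeightOneSpectrum (𝓞 K), v.asIdeal ∣ I → v ∈ S).card ≤
      (m + 1) ^ S.card := by
  have h0 : (Fintype.piFinset (fun _ : S => range (m + 1))).card = (m + 1) ^ S.card := by
    rw [Fintype.card_piFinset]
    simp
  rw [← h0]
  apply Finset.card_le_card_of_injOn
    (fun I => fun v : S => Multiset.count v.1.asIdeal (normalizedFactors I))
  · intro I hI
    have hI' := Finset.mem_filter.1 (Finset.mem_coe.1 hI)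
    rw [mem_E] at hI'
    rw [Finset.mem_coe, Fintype.mem_piFinset]
    intro v
    rw [Finset.mem_range, Nat.lt_succ_iff]
    refine (Multiset.count_le_card _ _).trans ?_
    have h1 := (pow_card_le K hI'.1.2).trans hI'.1.1
    exact (Nat.pow_le_pow_iff_right (by norm_num)).1 h1
  · intro I hI J hJ h
    have hI' := Finset.mem_filter.1 (Finset.mem_coe.1 hI)
    have hJ' := Finset.mem_filter.1 (Finset.mem_coe.1 hJ)
    rw [mem_E] at hI' hJ'
    have h1 : (normalizedFactors I).prod = I := by
      have := prod_normalizedFactors hI'.1.2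
      rwa [associated_iff_eq] at this
    have h2 : (normalizedFactors J).prod = J := by
      have := prod_normalizedFactors hJ'.1.2
      rwa [associated_iff_eq] at this
    rw [← h1, ← h2]
    congr 1
    ext P
    by_cases hP : P ∈ normalizedFactors I ∨ P ∈ normalizedFactors J
    · have hprime : Prime P := by
        rcases hP with hP | hP
        · exact prime_of_normalized_factor P hP
        · exact prime_of_normalized_factor P hP
      let v : HeightOneSpectrum (𝓞 K) := ⟨P, Ideal.isPrime_of_prime hprime, hprime.ne_zero⟩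
      have hv : v ∈ S := by
        rcases hP with hP | hP
        · exact hI'.2 v (dvd_of_mem_normalizedFactors hP)
        · exact hJ'.2 v (dvd_of_mem_normalizedFactors hP)
      exact congrFun h ⟨v, hv⟩
    · push Not at hP
      rw [Multiset.count_eq_zero_of_notMem hP.1, Multiset.count_eq_zero_of_notMem hP.2]

open Classical in
theorem card_dvd (v : HeightOneSpectrum (𝓞 K)) (x : ℕ) :
    ((E K x).filter fun I => v.asIdeal ∣ I).card ≤ (E K (x / Ideal.absNorm v.asIdeal)).card := by
  have h1 : (E K x).filter (fun I => v.asIdeal ∣ I) ⊆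
      (E K (x / Ideal.absNorm v.asIdeal)).image (fun J => v.asIdeal * J) := by
    intro I hI
    rw [Finset.mem_filter, mem_E] at hI
    obtain ⟨⟨hI1, hI2⟩, J, hJ⟩ := hI
    rw [Finset.mem_image]
    refine ⟨J, ?_, hJ.symm⟩
    rw [mem_E]
    refine ⟨?_, ?_⟩
    · rw [Nat.le_div_iff_mul_le (by have := two_le_absNorm K v; omega), mul_comm, ← map_mul, ← hJ]
      exact hI1
    · rintro rfl
      apply hI2
      rw [hJ]
      exact Ideal.mul_bot _
  exact (Finset.card_le_card h1).trans Finset.card_image_le

theorem not_summable : ¬ Summable (fun v : HeightOneSpectrum (𝓞 K) =>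
    (1 : ℝ) / Ideal.absNorm v.asIdeal) := by
  classical
  intro hs
  obtain ⟨c, C, hc, hC, hup, x₀, hlow⟩ := E_bounds K
  obtain ⟨S, hS⟩ := summable_iff_vanishing_norm.1 hs (c / (2 * C)) (by positivity)
  have h1 : ∀ m : ℕ, x₀ ≤ 2 ^ m → c / 2 * 2 ^ m ≤ ((m : ℝ) + 1) ^ S.card := by
    intro m hm
    set x := 2 ^ m with hx
    have hfin : {v : HeightOneSpectrum (𝓞 K) | Ideal.absNorm v.asIdeal ≤ x}.Finite := by
      refine Set.Finite.of_finite_image (f := fun v => v.asIdeal) ?_ ?_
      · refine (Ideal.finite_setOfPred_absNorm_le (S := 𝓞 K) x).subset ?_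
        rintro _ ⟨v, hv, rfl⟩
        exact hv
      · intro v _ w _ h
        exact HeightOneSpectrum.ext h
    set V := hfin.toFinset \ S with hV
    have hVd : Disjoint V S := Finset.sdiff_disjoint
    have hVs := hS V hVd
    have h2 : E K x ⊆ ((E K x).filter fun I => ∀ v : HeightOneSpectrum (𝓞 K), v.asIdeal ∣ I → v ∈ S) ∪
        V.biUnion (fun v => (E K x).filter fun I => v.asIdeal ∣ I) := by
      intro I hI
      rw [Finset.mem_union, Finset.mem_filter]
      by_cases h : ∀ v : HeightOneSpectrum (𝓞 K), v.asIdeal ∣ I → v ∈ S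
      · exact Or.inl ⟨hI, h⟩
      · push Not at h
        obtain ⟨v, hv, hvS⟩ := h
        right
        rw [Finset.mem_biUnion]
        refine ⟨v, ?_, Finset.mem_filter.2 ⟨hI, hv⟩⟩
        rw [hV, Finset.mem_sdiff, Set.Finite.mem_toFinset]
        refine ⟨?_, hvS⟩
        rw [mem_E] at hI
        have h3 : Ideal.absNorm v.asIdeal ∣ Ideal.absNorm I := map_dvd Ideal.absNorm hv
        exact (Nat.le_of_dvd (Nat.pos_of_ne_zero fun h => hI.2 (Ideal.absNorm_eq_zero_iff.1 h)) h3).trans
          hI.1
    have h3 := (Finset.card_le_card h2).trans (Finset.card_union_le _ _)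
    have h4 := smooth_card K S m
    have h5 : ((V.biUnion (fun v => (E K x).filter fun I => v.asIdeal ∣ I)).card : ℝ) ≤
        c / 2 * x := by
      have h6 : ((V.biUnion (fun v => (E K x).filter fun I => v.asIdeal ∣ I)).card : ℝ) ≤
          ∑ v ∈ V, C * (x * (1 / (Ideal.absNorm v.asIdeal : ℝ))) := by
        have h7 : (V.biUnion (fun v => (E K x).filter fun I => v.asIdeal ∣ I)).card ≤
          ∑ v ∈ V, ((E K x).filter fun I => v.asIdeal ∣ I).card := Finset.card_biUnion_le
        have h7' : ((V.biUnion (fun v => (E K x).filter fun I => v.asIdeal ∣ I)).card : ℝ) ≤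
          ((∑ v ∈ V, ((E K x).filter fun I => v.asIdeal ∣ I).card : ℕ) : ℝ) := by exact_mod_cast h7
        refine h7'.trans ?_
        push_cast
        apply Finset.sum_le_sum
        intro v _
        have h8 : (((E K x).filter fun I => v.asIdeal ∣ I).card : ℝ) ≤
          (E K (x / Ideal.absNorm v.asIdeal)).card := by exact_mod_cast card_dvd K v x
        refine h8.trans ((hup _).trans ?_)
        apply mul_le_mul_of_nonneg_left _ hC.le
        rw [mul_one_div]
        exact Nat.cast_div_le
      refine h6.trans ?_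
      rw [← Finset.mul_sum, ← Finset.mul_sum]
      have h9 : ∑ v ∈ V, (1 : ℝ) / (Ideal.absNorm v.asIdeal : ℝ) ≤ c / (2 * C) := by
        refine le_trans (le_abs_self _) ?_
        rw [← Real.norm_eq_abs]
        exact hVs.le
      calc C * (x * ∑ v ∈ V, (1 : ℝ) / (Ideal.absNorm v.asIdeal : ℝ))
          ≤ C * (x * (c / (2 * C))) := by
            apply mul_le_mul_of_nonneg_left _ hC.le
            exact mul_le_mul_of_nonneg_left h9 (Nat.cast_nonneg _)
        _ = c / 2 * x := by field_simp
    have h6 := hlow x hm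
    have h7 : ((E K x).card : ℝ) ≤ ((m : ℝ) + 1) ^ S.card + c / 2 * x := by
      have h8 : ((E K x).card : ℝ) ≤
        (((E K x).filter fun I => ∀ v : HeightOneSpectrum (𝓞 K), v.asIdeal ∣ I → v ∈ S).card : ℝ) +
        ((V.biUnion (fun v => (E K x).filter fun I => v.asIdeal ∣ I)).card : ℝ) := by
        exact_mod_cast h3
      have h9 : (((E K x).filter fun I => ∀ v : HeightOneSpectrum (𝓞 K), v.asIdeal ∣ I → v ∈ S).card : ℝ)
        ≤ ((m : ℝ) + 1) ^ S.card := by exact_mod_cast h4
      linarith
    have h8 : (x : ℝ) = 2 ^ m := by rw [hx]; push_cast; rfl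
    rw [h8] at h6 h7
    linarith
  have h2 := tendsto_pow_const_div_const_pow_of_one_lt S.card (r := (2 : ℝ)) (by norm_num)
  have h3 := h2.comp (tendsto_add_atTop_nat 1)
  have h4 := h3.eventually (gt_mem_nhds (show (0 : ℝ) < c / 4 by positivity))
  obtain ⟨m₀, hm₀⟩ := Filter.eventually_atTop.1 h4
  set m := max m₀ x₀ with hm
  have h5 := hm₀ m (le_max_left _ _)
  have h6 := h1 m (by
    have : x₀ ≤ m := le_max_right _ _
    exact this.trans (Nat.lt_two_pow_self).le)
  simp only [Function.comp_apply] at h5
  rw [div_lt_iff₀ (by positivity)] at h5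
  push_cast at h5
  rw [pow_succ] at h5
  linarith

end Pool.Agent.H443.NF
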