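import Mathlib
import Pool.Agent.H443.NF.Erd

/-!
# Prime ideals of degree one in a fixed ideal class
-/

set_option autoImplicit false

namespace Pool.Agent.H443.NF

open NumberField IsDedekindDomain Finset Filter Topology UniqueFactorizationMonoid

variable (K : Type*) [Field K] [NumberField K]

theorem exists_char (v : HeightOneSpectrum (𝓞 K)) :
    ∃ p : ℕ, p.Prime ∧ (p : 𝓞 K) ∈ v.asIdeal ∧ (Ideal.absNorm v.asIdeal = p ∨
      p ^ 2 ≤ Ideal.absNorm v.asIdeal) ∧ p ≤ Ideal.absNorm v.asIdeal := by
  have := v.isMaximal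
  obtain ⟨p, n, hn, hp, hpp, h⟩ := Ideal.exists_prime_and_absNorm_eq_pow v.asIdeal
  refine ⟨p, hpp, hp, ?_, ?_⟩
  · rcases Nat.lt_or_ge n 2 with h2 | h2
    · left
      have : n = 1 := by omega
      rw [h, this, pow_one]
    · right
      rw [h]
      exact Nat.pow_le_pow_right hpp.pos h2
  · rw [h]
    exact Nat.le_self_pow (by omega) p

/-- the rational prime below -/
noncomputable def chr (v : HeightOneSpectrum (𝓞 K)) : ℕ := (exists_char K v).choose

theorem chr_prime (v : HeightOneSpectrum (𝓞 K)) : (chr K v).Prime := (exists_char K v).choose_spec.1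

theorem chr_mem (v : HeightOneSpectrum (𝓞 K)) : ((chr K v : ℕ) : 𝓞 K) ∈ v.asIdeal :=
  (exists_char K v).choose_spec.2.1

theorem chr_deg (v : HeightOneSpectrum (𝓞 K)) : Ideal.absNorm v.asIdeal = chr K v ∨
    (chr K v) ^ 2 ≤ Ideal.absNorm v.asIdeal :=
  (exists_char K v).choose_spec.2.2.1

theorem chr_le (v : HeightOneSpectrum (𝓞 K)) : chr K v ≤ Ideal.absNorm v.asIdeal :=
  (exists_char K v).choose_spec.2.2.2

theorem fib_card (T : Finset (HeightOneSpectrum (𝓞 K))) (p : ℕ) (hT : ∀ v ∈ T, chr K v = p) :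
    T.card ≤ Module.finrank ℤ (𝓞 K) := by
  classical
  rcases T.eq_empty_or_nonempty with rfl | ⟨v₀, hv₀⟩
  · simp
  have hp : p.Prime := hT v₀ hv₀ ▸ chr_prime K v₀
  have hp0 : (Ideal.span {(p : 𝓞 K)}) ≠ 0 := by
    rw [Ne, Ideal.zero_eq_bot, Ideal.span_singleton_eq_bot]
    exact_mod_cast hp.ne_zero
  have hinj : Set.InjOn (fun v : HeightOneSpectrum (𝓞 K) => v.asIdeal) T := by
    intro v _ w _ h
    exact HeightOneSpectrum.ext h
  have h1 : (∏ P ∈ T.image (fun v => v.asIdeal), P) ∣ Ideal.span {(p : 𝓞 K)} := by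
    apply Finset.prod_primes_dvd
    · intro P hP
      obtain ⟨v, hv, rfl⟩ := Finset.mem_image.1 hP
      exact Ideal.prime_of_isPrime v.ne_bot v.isPrime
    · intro P hP
      obtain ⟨v, hv, rfl⟩ := Finset.mem_image.1 hP
      rw [Ideal.dvd_span_singleton, ← hT v hv]
      exact chr_mem K v
  rw [Finset.prod_image hinj] at h1
  have h2 : Ideal.absNorm (∏ v ∈ T, v.asIdeal) ∣ Ideal.absNorm (Ideal.span {(p : 𝓞 K)}) :=
    map_dvd Ideal.absNorm h1
  rw [Ideal.absNorm_span_natCast, map_prod] at h2
  have h3 := Nat.le_of_dvd (pow_pos hp.pos _) h2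
  have h4 : p ^ T.card ≤ ∏ v ∈ T, Ideal.absNorm v.asIdeal := by
    rw [Finset.card_eq_sum_ones, ← Finset.prod_pow_eq_pow_sum]
    apply Finset.prod_le_prod'
    intro v hv
    rw [pow_one]
    exact (hT v hv) ▸ chr_le K v
  exact (Nat.pow_le_pow_iff_right hp.one_lt).1 (h4.trans h3)

/-- the class of a prime ideal -/
noncomputable def cls (v : HeightOneSpectrum (𝓞 K)) : ClassGroup (𝓞 K) :=
  ClassGroup.mk0 ⟨v.asIdeal, mem_nonZeroDivisors_of_ne_zero v.ne_bot⟩

variable {T : Type} [Fintype T] (χ : HeightOneSpectrum (𝓞 K) → T)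

/-- the rational primes with a prime ideal of degree one of a given colour above -/
def PC (c : T) : Set ℕ := {p : ℕ | ∃ v : HeightOneSpectrum (𝓞 K),
  Ideal.absNorm v.asIdeal = p ∧ chr K v = p ∧ χ v = c}

theorem exists_class : ∃ c : T,
    ¬ Summable (Set.indicator (PC K χ c) (fun p : ℕ => (1 : ℝ) / p)) := by
  classical
  by_contra hcon
  push Not at hcon
  apply not_summable K
  set g : ℕ → ℝ := fun p => ∑ c : T, Set.indicator (PC K χ c) (fun p : ℕ => (1 : ℝ) / p) p
    with hg
  have hgs : Summable g := summable_sum fun c _ => hcon c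
  have hs : Summable (fun p : ℕ => 1 / (p : ℝ) ^ 2) := by simp
  have hind0 : ∀ (c : T) (p : ℕ),
      0 ≤ Set.indicator (PC K χ c) (fun p : ℕ => (1 : ℝ) / p) p := by
    intro c p
    apply Set.indicator_nonneg
    intro q _
    positivity
  have hg0 : ∀ p, 0 ≤ g p := fun p => Finset.sum_nonneg fun c _ => hind0 c p
  set h : ℕ → ℝ := fun p => g p + 1 / (p : ℝ) ^ 2 with hh
  have hhs : Summable h := hgs.add hs
  have hh0 : ∀ p, 0 ≤ h p := fun p => by
    have := hg0 p
    simp only [hh]
    positivity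
  have hv : ∀ v : HeightOneSpectrum (𝓞 K), (1 : ℝ) / Ideal.absNorm v.asIdeal ≤ h (chr K v) := by
    intro v
    have hp0 : (0 : ℝ) < chr K v := by exact_mod_cast (chr_prime K v).pos
    rcases chr_deg K v with h1 | h1
    · have h2 : Set.indicator (PC K χ (χ v)) (fun p : ℕ => (1 : ℝ) / p) (chr K v) =
          1 / (chr K v : ℝ) := by
        rw [Set.indicator_of_mem]
        exact ⟨v, h1, rfl, rfl⟩
      have h3 : 1 / (chr K v : ℝ) ≤ g (chr K v) := by
        rw [← h2]
        exact Finset.single_le_sum (f := fun c : T => Set.indicator (PC K χ c)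
          (fun p : ℕ => (1 : ℝ) / p) (chr K v)) (fun c _ => hind0 c _) (Finset.mem_univ _)
      rw [h1]
      simp only [hh]
      have : 0 ≤ 1 / (chr K v : ℝ) ^ 2 := by positivity
      linarith
    · have h2 : (1 : ℝ) / Ideal.absNorm v.asIdeal ≤ 1 / (chr K v : ℝ) ^ 2 := by
        apply one_div_le_one_div_of_le (by positivity)
        exact_mod_cast h1
      have := hg0 (chr K v)
      simp only [hh]
      linarith
  apply summable_of_sum_le (c := Module.finrank ℤ (𝓞 K) * ∑' p, h p)
  · intro v
    show (0 : ℝ) ≤ 1 / _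
    positivity
  · intro u
    rw [← Finset.sum_fiberwise_of_maps_to (t := u.image (chr K))
      (fun v hv => Finset.mem_image_of_mem _ hv)]
    have h1 : ∀ p ∈ u.image (chr K), ∑ v ∈ u with chr K v = p, (1 : ℝ) / Ideal.absNorm v.asIdeal ≤
        Module.finrank ℤ (𝓞 K) * h p := by
      intro p _
      calc ∑ v ∈ u with chr K v = p, (1 : ℝ) / Ideal.absNorm v.asIdeal
          ≤ ∑ _v ∈ u with chr K _v = p, h p := by
            apply Finset.sum_le_sum
            intro v hv'
            have := hv v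
            rwa [(Finset.mem_filter.1 hv').2] at this
        _ = ((u.filter fun v => chr K v = p).card : ℝ) * h p := by
            rw [Finset.sum_const, nsmul_eq_mul]
        _ ≤ _ := by
            apply mul_le_mul_of_nonneg_right _ (hh0 p)
            exact_mod_cast fib_card K (u.filter fun v => chr K v = p) p
              (fun v hv => (Finset.mem_filter.1 hv).2)
    refine (Finset.sum_le_sum h1).trans ?_
    rw [← Finset.mul_sum]
    apply mul_le_mul_of_nonneg_left _ (Nat.cast_nonneg _)
    exact hhs.sum_le_tsum _ (fun p _ => hh0 p)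

/-- **Many prime ideals of degree one and of one colour.** -/
theorem exists_primes : ∃ c : T, ∀ (B : ℝ) (y : ℕ),
    ∃ P : Finset (HeightOneSpectrum (𝓞 K)),
      (∀ v ∈ P, Ideal.absNorm v.asIdeal = chr K v ∧ y < chr K v ∧ χ v = c) ∧
      Set.InjOn (chr K) P ∧ B ≤ ∑ v ∈ P, (1 : ℝ) / chr K v := by
  classical
  obtain ⟨c, hc⟩ := exists_class K χ
  refine ⟨c, fun B y => ?_⟩
  by_contra hcon
  push Not at hcon
  apply hc
  apply summable_of_sum_le (c := ∑ n ∈ range (y + 1), (1 : ℝ) / n + B)
  · intro p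
    apply Set.indicator_nonneg
    intro q _
    show (0 : ℝ) ≤ 1 / _
    positivity
  · intro u
    -- choose prime ideals
    have hch : ∀ p : PC K χ c, ∃ v : HeightOneSpectrum (𝓞 K),
        Ideal.absNorm v.asIdeal = p.1 ∧ chr K v = p.1 ∧ χ v = c := fun p => p.2
    choose f hf1 hf2 hf3 using hch
    set s := u.filter (fun p => p ∈ PC K χ c ∧ y < p) with hs
    have h1 : ∑ p ∈ u, Set.indicator (PC K χ c) (fun p : ℕ => (1 : ℝ) / p) p ≤
        ∑ n ∈ range (y + 1), (1 : ℝ) / n + ∑ p ∈ s, (1 : ℝ) / p := by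
      rw [hs, Finset.sum_filter]
      have h2 : ∑ n ∈ u, (if n < y + 1 then (1 : ℝ) / n else 0) ≤
          ∑ n ∈ range (y + 1), (1 : ℝ) / n := by
        rw [← Finset.sum_filter]
        apply Finset.sum_le_sum_of_subset_of_nonneg
        · intro n hn
          rw [Finset.mem_filter] at hn
          rw [Finset.mem_range]
          exact hn.2
        · intro n _ _
          positivity
      refine le_trans ?_ (add_le_add_left h2 _)
      rw [← Finset.sum_add_distrib]
      apply Finset.sum_le_sum
      intro n _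
      simp only [Set.indicator]
      have hpos : (0 : ℝ) ≤ 1 / n := by positivity
      by_cases hn : n ∈ PC K χ c
      · by_cases hy : y < n
        · simp [hn, hy, show ¬ n < y + 1 by omega]
        · simp [hn, hy, show n < y + 1 by omega]
      · simp only [hn, if_false, false_and]
        split_ifs <;> linarith
    refine h1.trans (add_le_add le_rfl ?_)
    set P : Finset (HeightOneSpectrum (𝓞 K)) := s.attach.image
      (fun p => f ⟨p.1, (Finset.mem_filter.1 p.2).2.1⟩) with hP
    have hPs : ∀ v ∈ P, Ideal.absNorm v.asIdeal = chr K v ∧ y < chr K v ∧ χ v = c := by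
      intro v hv
      obtain ⟨p, -, rfl⟩ := Finset.mem_image.1 hv
      refine ⟨?_, ?_, hf3 _⟩
      · rw [hf1, hf2]
      · rw [hf2]
        exact (Finset.mem_filter.1 p.2).2.2
    have hinj : Set.InjOn (chr K) P := by
      intro v hv w hw h
      obtain ⟨p, -, rfl⟩ := Finset.mem_image.1 (Finset.mem_coe.1 hv)
      obtain ⟨q, -, rfl⟩ := Finset.mem_image.1 (Finset.mem_coe.1 hw)
      rw [hf2, hf2] at h
      have : p = q := Subtype.ext h
      rw [this]
    have h3 := hcon P hPs hinj
    refine le_trans (le_of_eq ?_) h3.le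
    rw [hP, Finset.sum_image]
    · rw [← Finset.sum_attach s]
      apply Finset.sum_congr rfl
      intro p _
      rw [hf2]
    · intro p _ q _ h
      have h4 := congrArg (chr K) h
      simp only at h4
      rw [hf2, hf2] at h4
      exact Subtype.ext h4

end Pool.Agent.H443.NF
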