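import Mathlib

/-!
# Counting elements of an ideal in a box
-/

set_option autoImplicit false

namespace Pool.Agent.H443.NF

open Finset Filter Topology

section group

variable {G : Type*} [AddCommGroup G] (Ω : ℕ → Finset G)

open Classical in
theorem coset_count (hΩ : ∀ g : G, ∃ c : ℕ, ∀ x, ∀ a ∈ Ω x, a + g ∈ Ω (x + c))
    (hmono : ∀ x y, x ≤ y → Ω x ⊆ Ω y) (H : AddSubgroup G) [H.FiniteIndex] :
    ∃ c : ℕ, ∀ x, (Ω x).card ≤ H.index * ((Ω (x + c)).filter (· ∈ H)).card ∧
      H.index * ((Ω x).filter (· ∈ H)).card ≤ (Ω (x + c)).card := by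
  classical
  choose c hc using hΩ
  have : Fintype (G ⧸ H) := Fintype.ofFinite _
  set C : ℕ := (univ : Finset (G ⧸ H)).sup (fun q => max (c q.out) (c (-q.out))) with hC
  have hC1 : ∀ q : G ⧸ H, c q.out ≤ C := fun q =>
    (le_max_left _ _).trans (Finset.le_sup (f := fun q : G ⧸ H => max (c q.out) (c (-q.out)))
      (Finset.mem_univ q))
  have hC2 : ∀ q : G ⧸ H, c (-q.out) ≤ C := fun q =>
    (le_max_right _ _).trans (Finset.le_sup (f := fun q : G ⧸ H => max (c q.out) (c (-q.out)))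
      (Finset.mem_univ q))
  have hidx : H.index = Fintype.card (G ⧸ H) := by
    rw [AddSubgroup.index, Nat.card_eq_fintype_card]
  have hfib : ∀ x, (Ω x).card = ∑ q : G ⧸ H,
      ((Ω x).filter fun a : G => (QuotientAddGroup.mk a : G ⧸ H) = q).card :=
    fun x => Finset.card_eq_sum_card_fiberwise (fun a _ => Finset.mem_univ _)
  refine ⟨C, fun x => ⟨?_, ?_⟩⟩
  · rw [hfib, hidx, ← smul_eq_mul, ← Finset.card_univ, ← Finset.sum_const]
    apply Finset.sum_le_sum
    intro q _
    apply Finset.card_le_card_of_injOn (fun a => a + (-q.out))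
    · intro a ha
      have ha' := Finset.mem_filter.1 (Finset.mem_coe.1 ha)
      rw [Finset.mem_coe, Finset.mem_filter]
      refine ⟨hmono _ _ (Nat.add_le_add_left (hC2 q) x) (hc _ x a ha'.1), ?_⟩
      have h1 : (QuotientAddGroup.mk (q.out : G) : G ⧸ H) = QuotientAddGroup.mk a := by
        rw [ha'.2]
        exact Quotient.out_eq' q
      rw [QuotientAddGroup.eq] at h1
      rwa [add_comm] at h1
    · intro a _ b _ h
      exact add_right_cancel h
  · rw [hfib (x + C), hidx, ← smul_eq_mul, ← Finset.card_univ, ← Finset.sum_const]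
    apply Finset.sum_le_sum
    intro q _
    apply Finset.card_le_card_of_injOn (fun a => a + q.out)
    · intro a ha
      have ha' := Finset.mem_filter.1 (Finset.mem_coe.1 ha)
      rw [Finset.mem_coe, Finset.mem_filter]
      refine ⟨hmono _ _ (Nat.add_le_add_left (hC1 q) x) (hc _ x a ha'.1), ?_⟩
      have h1 : (QuotientAddGroup.mk (a + q.out : G) : G ⧸ H) = QuotientAddGroup.mk (q.out : G) := by
        symm
        rw [QuotientAddGroup.eq]
        have : -q.out + (a + q.out) = a := by abel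
        rw [this]
        exact ha'.2
      rw [h1]
      exact Quotient.out_eq' q
    · intro a _ b _ h
      exact add_right_cancel h

theorem ratio_tendsto (n c : ℕ) : Tendsto (fun x : ℕ => ((2 * ((x + c : ℕ) : ℝ) + 1) ^ n) /
    ((2 * (x : ℝ) + 1) ^ n)) atTop (𝓝 1) := by
  have h1 : Tendsto (fun x : ℕ => (2 * ((x + c : ℕ) : ℝ) + 1) / (2 * (x : ℝ) + 1)) atTop (𝓝 1) := by
    have h2 : ∀ x : ℕ, (2 * ((x + c : ℕ) : ℝ) + 1) / (2 * (x : ℝ) + 1) =
        1 + (2 * c) * (2 * (x : ℝ) + 1)⁻¹ := by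
      intro x
      have : (2 * (x : ℝ) + 1) ≠ 0 := by positivity
      field_simp
      push_cast
      ring
    simp only [h2]
    have h3 : Tendsto (fun x : ℕ => (2 * (x : ℝ) + 1)⁻¹) atTop (𝓝 0) := by
      apply tendsto_inv_atTop_zero.comp
      apply tendsto_atTop_add_const_right
      exact Tendsto.const_mul_atTop (by norm_num) tendsto_natCast_atTop_atTop
    have h4 := (h3.const_mul (2 * (c : ℝ))).const_add 1
    simpa using h4
  have h2 := h1.pow n
  simp only [one_pow] at h2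
  refine h2.congr ?_
  intro x
  rw [div_pow]

open Classical in
theorem subgroup_density (n : ℕ) (hcard : ∀ x, (Ω x).card = (2 * x + 1) ^ n)
    (hΩ : ∀ g : G, ∃ c : ℕ, ∀ x, ∀ a ∈ Ω x, a + g ∈ Ω (x + c))
    (hmono : ∀ x y, x ≤ y → Ω x ⊆ Ω y) (H : AddSubgroup G) [H.FiniteIndex] (η : ℝ) (hη : 0 < η) :
    ∃ x₀ : ℕ, ∀ x ≥ x₀, (1 - η) * (1 / H.index) * (Ω x).card ≤ ((Ω x).filter (· ∈ H)).card ∧
      (((Ω x).filter (· ∈ H)).card : ℝ) ≤ (1 + η) * (1 / H.index) * (Ω x).card := by
  classical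
  obtain ⟨c, hc⟩ := coset_count Ω hΩ hmono H
  have hk : (0 : ℝ) < H.index := by
    exact_mod_cast Nat.pos_of_ne_zero AddSubgroup.FiniteIndex.index_ne_zero
  have hpos : ∀ x : ℕ, (0 : ℝ) < (2 * (x : ℝ) + 1) ^ n := fun x => by positivity
  have h1 := (ratio_tendsto n c).eventually (gt_mem_nhds (show (1 : ℝ) < 1 + η by linarith))
  obtain ⟨x₁, hx₁⟩ := Filter.eventually_atTop.1 h1
  refine ⟨x₁ + c, fun x hx => ⟨?_, ?_⟩⟩
  · -- lower bound
    obtain ⟨y, rfl⟩ : ∃ y, x = y + c := ⟨x - c, by omega⟩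
    have h2 := (hc y).1
    have h3 := hx₁ y (by omega)
    have h4 : ((Ω y).card : ℝ) ≤ H.index * ((Ω (y + c)).filter (· ∈ H)).card := by exact_mod_cast h2
    rw [div_lt_iff₀ (hpos y)] at h3
    have h5 : ((Ω (y + c)).card : ℝ) = (2 * ((y + c : ℕ) : ℝ) + 1) ^ n := by
      rw [hcard]; push_cast; ring
    have h6 : ((Ω y).card : ℝ) = (2 * (y : ℝ) + 1) ^ n := by
      rw [hcard]; push_cast; ring
    rw [h6] at h4
    rw [h5]
    have h7 : (1 - η) * (2 * ((y + c : ℕ) : ℝ) + 1) ^ n ≤ (2 * (y : ℝ) + 1) ^ n := by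
      rcases le_or_gt 1 η with h | h
      · have : (1 - η) * (2 * ((y + c : ℕ) : ℝ) + 1) ^ n ≤ 0 :=
          mul_nonpos_of_nonpos_of_nonneg (by linarith) (hpos _).le
        linarith [hpos y]
      · have h8 : (1 - η) * (2 * ((y + c : ℕ) : ℝ) + 1) ^ n ≤ (1 - η) * ((1 + η) * (2 * (y : ℝ) + 1) ^ n) :=
          mul_le_mul_of_nonneg_left h3.le (by linarith)
        have h9 : (1 - η) * ((1 + η) * (2 * (y : ℝ) + 1) ^ n) = (2 * (y : ℝ) + 1) ^ n -
          η ^ 2 * (2 * (y : ℝ) + 1) ^ n := by ring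
        have h10 : 0 ≤ η ^ 2 * (2 * (y : ℝ) + 1) ^ n := by positivity
        linarith
    have h11 := h7.trans h4
    rw [show (1 - η) * (1 / (H.index : ℝ)) * (2 * ((y + c : ℕ) : ℝ) + 1) ^ n =
      ((1 - η) * (2 * ((y + c : ℕ) : ℝ) + 1) ^ n) / H.index by ring]
    rw [div_le_iff₀ hk]
    linarith
  · have h2 := (hc x).2
    have h3 := hx₁ x (by omega)
    have h4 : (H.index : ℝ) * ((Ω x).filter (· ∈ H)).card ≤ ((Ω (x + c)).card : ℝ) := by exact_mod_cast h2
    rw [div_lt_iff₀ (hpos x)] at h3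
    have h5 : ((Ω (x + c)).card : ℝ) = (2 * ((x + c : ℕ) : ℝ) + 1) ^ n := by
      rw [hcard]; push_cast; ring
    have h6 : ((Ω x).card : ℝ) = (2 * (x : ℝ) + 1) ^ n := by
      rw [hcard]; push_cast; ring
    rw [h5] at h4
    rw [h6]
    rw [show (1 + η) * (1 / (H.index : ℝ)) * (2 * (x : ℝ) + 1) ^ n =
      ((1 + η) * (2 * (x : ℝ) + 1) ^ n) / H.index by ring]
    rw [le_div_iff₀ hk]
    linarith

end group

section field

open NumberField

variable (K : Type*) [Field K] [NumberField K]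

/-- the integers with all coordinates bounded by `x` -/
noncomputable def Om (x : ℕ) : Finset (𝓞 K) := by
  classical
  exact (Fintype.piFinset fun _ : Module.Free.ChooseBasisIndex ℤ (𝓞 K) =>
    Finset.Icc (-(x : ℤ)) x).image (RingOfIntegers.basis K).equivFun.symm

variable {K}

theorem mem_Om {x : ℕ} {α : 𝓞 K} :
    α ∈ Om K x ↔ ∀ i, |(RingOfIntegers.basis K).repr α i| ≤ x := by
  classical
  unfold Om
  rw [Finset.mem_image]
  constructor
  · rintro ⟨a, ha, rfl⟩ i
    rw [Fintype.mem_piFinset] at ha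
    have h1 := Finset.mem_Icc.1 (ha i)
    have h2 : (RingOfIntegers.basis K).repr ((RingOfIntegers.basis K).equivFun.symm a) i = a i := by
      have := congrFun ((RingOfIntegers.basis K).equivFun.apply_symm_apply a) i
      rwa [Module.Basis.equivFun_apply] at this
    rw [h2]
    exact abs_le.2 h1
  · intro h
    refine ⟨(RingOfIntegers.basis K).equivFun α, ?_, LinearEquiv.symm_apply_apply _ _⟩
    rw [Fintype.mem_piFinset]
    intro i
    rw [Finset.mem_Icc, Module.Basis.equivFun_apply]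
    exact abs_le.1 (h i)

variable (K)

theorem card_Om (x : ℕ) : (Om K x).card = (2 * x + 1) ^ (Module.finrank ℚ K) := by
  classical
  unfold Om
  rw [Finset.card_image_of_injective _ (LinearEquiv.injective _), Fintype.card_piFinset]
  simp only [Int.card_Icc, Finset.prod_const, Finset.card_univ]
  congr 1
  · omega
  · rw [← RingOfIntegers.rank K, Module.finrank_eq_card_chooseBasisIndex]

theorem Om_shift (g : 𝓞 K) : ∃ c : ℕ, ∀ x, ∀ a ∈ Om K x, a + g ∈ Om K (x + c) := by
  classical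
  refine ⟨∑ i, ((RingOfIntegers.basis K).repr g i).natAbs, ?_⟩
  intro x a ha
  rw [mem_Om] at ha ⊢
  intro i
  have h1 := ha i
  rw [map_add, Finsupp.add_apply]
  have h2 : |(RingOfIntegers.basis K).repr g i| ≤
      ((∑ i, ((RingOfIntegers.basis K).repr g i).natAbs : ℕ) : ℤ) := by
    rw [Int.abs_eq_natAbs]
    exact_mod_cast Finset.single_le_sum (f := fun i => ((RingOfIntegers.basis K).repr g i).natAbs)
      (fun _ _ => Nat.zero_le _) (Finset.mem_univ i)
  refine (abs_add_le _ _).trans ?_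
  push_cast at h2 ⊢
  linarith

theorem Om_mono (x y : ℕ) (h : x ≤ y) : Om K x ⊆ Om K y := by
  intro a ha
  rw [mem_Om] at ha ⊢
  intro i
  refine (ha i).trans ?_
  exact_mod_cast h

open Classical in
theorem ideal_density (I : Ideal (𝓞 K)) (hI : I ≠ ⊥) (η : ℝ) (hη : 0 < η) :
    ∃ x₀ : ℕ, ∀ x ≥ x₀,
      (1 - η) * (1 / Ideal.absNorm I) * (Om K x).card ≤ ((Om K x).filter (· ∈ I)).card ∧
      (((Om K x).filter (· ∈ I)).card : ℝ) ≤ (1 + η) * (1 / Ideal.absNorm I) * (Om K x).card := by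
  have := Ideal.finiteIndex hI
  obtain ⟨x₀, hx₀⟩ := subgroup_density (Om K) (Module.finrank ℚ K) (card_Om K) (Om_shift K)
    (Om_mono K) I.toAddSubgroup η hη
  refine ⟨x₀, fun x hx => ?_⟩
  have h := hx₀ x hx
  rw [← Ideal.absNorm_eq_index] at h
  exact h

end field

end Pool.Agent.H443.NF
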