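import Mathlib
import Pool.Agent.H443.NF.Cls

/-!
# Logarithms of the conjugates of ratios of generators are independent
-/

set_option autoImplicit false

namespace Pool.Agent.H443.NF

open NumberField IsDedekindDomain Finset

variable (K : Type) [Field K] [NumberField K]

theorem exists_V (τ : K →+* ℂ) (v : HeightOneSpectrum (𝓞 K)) :
    ∃ B : ValuationSubring ℂ, (∀ a ∈ v.asIdeal, B.valuation (τ (a : K)) < 1) ∧
      (∀ z : ℂ, IsIntegral ℤ z → B.valuation z ≤ 1) := by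
  set f : 𝓞 K →+* ℂ := τ.comp (algebraMap (𝓞 K) K) with hf
  have hfi : Function.Injective f := τ.injective.comp (RingOfIntegers.coe_injective)
  set I : Ideal f.range := v.asIdeal.map f.rangeRestrict with hI
  have hbij : Function.Bijective f.rangeRestrict := by
    refine ⟨?_, f.rangeRestrict_surjective⟩
    intro a b h
    exact hfi (congrArg Subtype.val h)
  have hItop : I ≠ ⊤ := by
    intro h
    have h1 := Ideal.comap_map_of_bijective f.rangeRestrict hbij (I := v.asIdeal)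
    rw [← hI, h, Ideal.comap_top] at h1
    exact v.isPrime.ne_top h1.symm
  obtain ⟨B, hB1, hB2⟩ := Ideal.image_subset_nonunits_valuationSubring I hItop
  refine ⟨B, ?_, ?_⟩
  · intro a ha
    have h1 : τ (a : K) ∈ B.nonunits := by
      apply hB2
      exact ⟨f.rangeRestrict a, Ideal.mem_map_of_mem _ ha, rfl⟩
    exact (ValuationSubring.mem_nonunits_iff B).1 h1
  · intro z hz
    have h1 : IsIntegral B.valuation.integer z := hz.tower_top
    have h2 := (Valuation.integer.integers B.valuation).mem_of_integral h1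
    exact h2

theorem V_int (B : ValuationSubring ℂ) (n : ℤ) : B.valuation (n : ℂ) ≤ 1 := by
  rw [ValuationSubring.valuation_le_one_iff]
  exact intCast_mem B n

theorem V_coprime (B : ValuationSubring ℂ) (q : ℕ) (hq : B.valuation (q : ℂ) < 1) (n : ℤ)
    (hn : IsCoprime n (q : ℤ)) : B.valuation (n : ℂ) = 1 := by
  refine le_antisymm (V_int B n) ?_
  by_contra h
  push Not at h
  obtain ⟨a, b, hab⟩ := hn
  have h1 : ((a : ℂ) * (n : ℂ) + (b : ℂ) * (q : ℂ)) = 1 := by exact_mod_cast hab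
  have h2 : B.valuation ((a : ℂ) * (n : ℂ) + (b : ℂ) * (q : ℂ)) < 1 := by
    apply B.valuation.map_add_lt
    · rw [map_mul]
      calc B.valuation (a : ℂ) * B.valuation (n : ℂ) ≤ 1 * B.valuation (n : ℂ) :=
            mul_le_mul_left (V_int B a) _
        _ < 1 := by rwa [one_mul]
    · rw [map_mul]
      calc B.valuation (b : ℂ) * B.valuation (q : ℂ) ≤ 1 * B.valuation (q : ℂ) :=
            mul_le_mul_left (V_int B b) _
        _ < 1 := by rwa [one_mul]
  rw [h1, map_one] at h2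
  exact lt_irrefl _ h2

/-- every nonzero algebraic integer divides a nonzero integer -/
theorem exists_multiple (δ : ℂ) (hδ : IsIntegral ℤ δ) (h0 : δ ≠ 0) :
    ∃ (N : ℤ) (z : ℂ), N ≠ 0 ∧ IsIntegral ℤ z ∧ (N : ℂ) = z * δ := by
  set x : integralClosure ℤ ℂ := ⟨δ, hδ⟩ with hx
  have hx0 : x ≠ 0 := fun h => h0 (congrArg Subtype.val h)
  have h1 := Ideal.comap_ne_bot_of_integral_mem (R := ℤ) (I := Ideal.span {x}) hx0
    (Ideal.mem_span_singleton_self x) (Algebra.IsIntegral.isIntegral x)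
  obtain ⟨N, hN, hN0⟩ := Submodule.exists_mem_ne_zero_of_ne_bot h1
  rw [Ideal.mem_comap, Ideal.mem_span_singleton'] at hN
  obtain ⟨z, hz⟩ := hN
  refine ⟨N, z, hN0, z.2, ?_⟩
  have h2 := congrArg Subtype.val hz
  simpa using h2.symm

theorem exists_sep : ∃ Y : ℕ, ∀ σ τ : K →+* ℂ, σ ≠ τ → ∃ (θ : 𝓞 K) (N : ℤ) (z : ℂ),
    N ≠ 0 ∧ N.natAbs ≤ Y ∧ IsIntegral ℤ z ∧ (N : ℂ) = z * (σ (θ : K) - τ (θ : K)) := by
  classical
  have h1 : ∀ p : (K →+* ℂ) × (K →+* ℂ), ∃ (θ : 𝓞 K) (N : ℤ) (z : ℂ), p.1 ≠ p.2 →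
      N ≠ 0 ∧ IsIntegral ℤ z ∧ (N : ℂ) = z * (p.1 (θ : K) - p.2 (θ : K)) := by
    rintro ⟨σ, τ⟩
    by_cases hst : σ = τ
    · exact ⟨0, 0, 0, fun h => absurd hst h⟩
    · have h2 : ∃ θ : 𝓞 K, σ (θ : K) ≠ τ (θ : K) := by
        by_contra hcon
        push Not at hcon
        apply hst
        ext a
        obtain ⟨b, c, hc, rfl⟩ := IsFractionRing.div_surjective (A := 𝓞 K) a
        rw [map_div₀, map_div₀]
        congr 1
        · exact hcon b
        · exact hcon c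
      obtain ⟨θ, hθ⟩ := h2
      have hint : ∀ ρ : K →+* ℂ, IsIntegral ℤ (ρ (θ : K)) := fun ρ =>
        map_isIntegral_int ρ θ.2
      obtain ⟨N, z, hN, hz, h⟩ := exists_multiple (σ (θ : K) - τ (θ : K))
        ((hint σ).sub (hint τ)) (sub_ne_zero.2 hθ)
      exact ⟨θ, N, z, fun _ => ⟨hN, hz, h⟩⟩
  choose θ N z h using h1
  refine ⟨(univ : Finset ((K →+* ℂ) × (K →+* ℂ))).sup fun p => (N p).natAbs, ?_⟩
  intro σ τ hst
  obtain ⟨h2, h3, h4⟩ := h (σ, τ) hst
  exact ⟨θ (σ, τ), N (σ, τ), z (σ, τ), h2,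
    Finset.le_sup (f := fun p : (K →+* ℂ) × (K →+* ℂ) => (N p).natAbs) (Finset.mem_univ (σ, τ)), h3, h4⟩

/-- a prime ideal of degree one has integers as representatives -/
theorem deg_one (v : HeightOneSpectrum (𝓞 K)) (hv : (Ideal.absNorm v.asIdeal).Prime) (θ : 𝓞 K) :
    ∃ c : ℤ, θ - c ∈ v.asIdeal := by
  have hcard : Nat.card (𝓞 K ⧸ v.asIdeal) = Ideal.absNorm v.asIdeal := by
    rw [Ideal.absNorm_apply]
    rfl
  have : Fact (Nat.card (𝓞 K ⧸ v.asIdeal)).Prime := ⟨by rw [hcard]; exact hv⟩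
  have h1 : (1 : 𝓞 K ⧸ v.asIdeal) ≠ 0 := by
    intro h
    apply v.isPrime.ne_top
    rw [Ideal.eq_top_iff_one]
    exact Ideal.Quotient.eq_zero_iff_mem.1 h
  rcases AddSubgroup.eq_bot_or_eq_top_of_prime_card (AddSubgroup.zmultiples (1 : 𝓞 K ⧸ v.asIdeal))
    with h | h
  · rw [AddSubgroup.zmultiples_eq_bot] at h
    exact absurd h h1
  · have h2 : (Ideal.Quotient.mk v.asIdeal θ) ∈ AddSubgroup.zmultiples (1 : 𝓞 K ⧸ v.asIdeal) := by
      rw [h]; trivial
    obtain ⟨c, hc⟩ := AddSubgroup.mem_zmultiples_iff.1 h2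
    refine ⟨c, ?_⟩
    rw [← Ideal.Quotient.eq_zero_iff_mem, map_sub, ← hc]
    simp

/-- the ideals `v`, `w` satisfy `w = ξ v` -/
def Rto (v w : HeightOneSpectrum (𝓞 K)) (ξ : K) : Prop :=
  ξ ≠ 0 ∧ (∀ β ∈ v.asIdeal, ∃ α ∈ w.asIdeal, (α : K) = ξ * β) ∧
    (∀ α ∈ w.asIdeal, ∃ β ∈ v.asIdeal, (α : K) = ξ * β)

variable {K}

omit [NumberField K] in
theorem Rto.V_le {v w : HeightOneSpectrum (𝓞 K)} {ξ : K} (h : Rto K v w ξ) (σ : K →+* ℂ)
    (B : ValuationSubring ℂ) (hB : ∀ z : ℂ, IsIntegral ℤ z → B.valuation z ≤ 1)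
    (β : 𝓞 K) (hβ : β ∈ v.asIdeal) (hβ1 : B.valuation (σ (β : K)) = 1) :
    B.valuation (σ ξ) ≤ 1 := by
  obtain ⟨α, _, h1⟩ := h.2.1 β hβ
  have h2 := congrArg (fun x => B.valuation (σ x)) h1
  simp only [map_mul] at h2
  rw [hβ1, mul_one] at h2
  rw [← h2]
  exact hB _ (map_isIntegral_int σ α.2)

omit [NumberField K] in
theorem Rto.V_ge {v w : HeightOneSpectrum (𝓞 K)} {ξ : K} (h : Rto K v w ξ) (σ : K →+* ℂ)
    (B : ValuationSubring ℂ) (hB : ∀ z : ℂ, IsIntegral ℤ z → B.valuation z ≤ 1)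
    (α : 𝓞 K) (hα : α ∈ w.asIdeal) (hα1 : B.valuation (σ (α : K)) = 1) :
    1 ≤ B.valuation (σ ξ) := by
  obtain ⟨β, _, h1⟩ := h.2.2 α hα
  have h2 := congrArg (fun x => B.valuation (σ x)) h1
  simp only [map_mul] at h2
  rw [hα1] at h2
  rw [h2]
  calc B.valuation (σ ξ) * B.valuation (σ (β : K)) ≤ B.valuation (σ ξ) * 1 :=
        mul_le_mul_right (hB _ (map_isIntegral_int σ β.2)) _
    _ = B.valuation (σ ξ) := mul_one _

variable (K)

/-- **Independence.** -/
theorem log_indep : ∃ Y : ℕ, ∀ (r : ℕ) (v w : Fin r → HeightOneSpectrum (𝓞 K)) (ξ : Fin r → K),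
    (∀ i, Rto K (v i) (w i) (ξ i)) → (∀ i, Ideal.absNorm (w i).asIdeal = chr K (w i)) →
    (∀ i, Y < chr K (w i)) → (∀ i j, chr K (v i) ≠ chr K (w j)) →
    (∀ i j, i ≠ j → chr K (w i) ≠ chr K (w j)) →
    ∀ (W : Fin r → (K →+* ℂ) → ℂ), (∀ i σ, Complex.exp (W i σ) = σ (ξ i)) →
    LinearIndependent ℚ (fun p : Fin r × (K →+* ℂ) => W p.1 p.2) := by
  classical
  obtain ⟨Y, hY⟩ := exists_sep K
  refine ⟨Y, ?_⟩
  intro r v w ξ hξ hdeg hbig hvw hww W hW
  rw [← LinearIndependent.iff_fractionRing ℤ ℚ, Fintype.linearIndependent_iff]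
  intro g hg
  rintro ⟨i₀, τ⟩
  obtain ⟨B, hB1, hB2⟩ := exists_V K τ (w i₀)
  set q := chr K (w i₀) with hq
  have hqp : q.Prime := chr_prime K (w i₀)
  have hVq : B.valuation (q : ℂ) < 1 := by
    have h1 := hB1 _ (chr_mem K (w i₀))
    simpa using h1
  have hVp : ∀ p : ℕ, p.Prime → p ≠ q → B.valuation (p : ℂ) = 1 := by
    intro p hp hpq
    have h1 := V_coprime B q hVq (p : ℤ) (by
      rw [Nat.isCoprime_iff_coprime]
      exact (Nat.coprime_primes hp hqp).2 hpq)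
    simpa using h1
  have hone : ∀ z : Fin r × (K →+* ℂ), z ≠ (i₀, τ) → B.valuation (z.2 (ξ z.1)) = 1 := by
    rintro ⟨i, σ⟩ hne
    apply le_antisymm
    · refine (hξ i).V_le σ B hB2 (chr K (v i) : 𝓞 K) (chr_mem K (v i)) ?_
      have h1 := hVp (chr K (v i)) (chr_prime K _) (hvw i i₀)
      simpa using h1
    · by_cases hi : i = i₀
      · subst hi
        have hst : τ ≠ σ := fun h => hne (by rw [h])
        obtain ⟨θ, N, z, hN0, hNY, hz, hNz⟩ := hY τ σ hst
        obtain ⟨c, hc⟩ := deg_one K (w i) (by rw [hdeg i]; exact hqp) θ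
        refine (hξ i).V_ge σ B hB2 (θ - c) hc ?_
        refine le_antisymm (hB2 _ (map_isIntegral_int σ (θ - c : 𝓞 K).2)) ?_
        by_contra hlt
        push Not at hlt
        have h1 := hB1 _ hc
        have h2 : τ (θ : K) - σ (θ : K) = τ ((θ - c : 𝓞 K) : K) - σ ((θ - c : 𝓞 K) : K) := by
          simp
        have h3 : B.valuation (τ (θ : K) - σ (θ : K)) < 1 := by
          rw [h2]
          exact B.valuation.map_sub_lt h1 hlt
        have h4 : B.valuation (N : ℂ) < 1 := by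
          rw [hNz, map_mul]
          calc B.valuation z * B.valuation (τ (θ : K) - σ (θ : K))
              ≤ 1 * B.valuation (τ (θ : K) - σ (θ : K)) := mul_le_mul_left (hB2 _ hz) _
            _ < 1 := by rwa [one_mul]
        have h5 : B.valuation (N : ℂ) = 1 := by
          apply V_coprime B q hVq
          rw [Int.isCoprime_iff_gcd_eq_one, Int.gcd, Int.natAbs_natCast]
          rw [← Nat.Coprime, Nat.coprime_comm]
          refine (Nat.Prime.coprime_iff_not_dvd hqp).2 ?_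
          intro hdvd
          have h6 := Nat.le_of_dvd (Int.natAbs_pos.2 hN0) hdvd
          have h7 := hbig i
          omega
        rw [h5] at h4
        exact lt_irrefl _ h4
      · refine (hξ i).V_ge σ B hB2 (chr K (w i) : 𝓞 K) (chr_mem K (w i)) ?_
        have h1 := hVp (chr K (w i)) (chr_prime K _) (hww i i₀ hi)
        simpa using h1
  have hlt : B.valuation (τ (ξ i₀)) < 1 := by
    obtain ⟨α, hα, h1⟩ := (hξ i₀).2.1 (chr K (v i₀) : 𝓞 K) (chr_mem K (v i₀))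
    have h2 := hVp (chr K (v i₀)) (chr_prime K _) (hvw i₀ i₀)
    have h3 := congrArg (fun x => B.valuation (τ x)) h1
    simp only [map_mul] at h3
    have h4 : B.valuation (τ (((chr K (v i₀) : ℕ) : 𝓞 K) : K)) = 1 := by simpa using h2
    rw [h4, mul_one] at h3
    rw [← h3]
    exact hB1 _ hα
  -- exponentiate
  have h1 : ∏ z : Fin r × (K →+* ℂ), (z.2 (ξ z.1)) ^ (g z) = 1 := by
    rw [← Complex.exp_zero, ← hg, Complex.exp_sum]
    refine Finset.prod_congr rfl fun z _ => ?_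
    rw [zsmul_eq_mul, Complex.exp_int_mul, hW]
  have h2 := congrArg B.valuation h1
  rw [map_one, map_prod] at h2
  rw [Finset.prod_eq_single (i₀, τ)] at h2
  · rw [map_zpow₀] at h2
    by_contra hg0
    have h3 : (0 : B.ValueGroup) < B.valuation (τ (ξ i₀)) := by
      rw [zero_lt_iff, Ne, B.valuation.zero_iff]
      intro h
      exact (hξ i₀).1 ((map_eq_zero τ).1 h)
    rcases lt_trichotomy (g (i₀, τ)) 0 with h | h | h
    · have h4 : 1 < B.valuation (τ (ξ i₀)) ^ (g (i₀, τ)) := one_lt_zpow_of_neg₀ h3 hlt h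
      exact absurd h2 h4.ne'
    · exact hg0 h
    · have h4 : B.valuation (τ (ξ i₀)) ^ (g (i₀, τ)) < 1 := zpow_lt_one₀ h3 hlt h
      exact absurd h2 h4.ne
  · intro z _ hz
    rw [map_zpow₀, hone z hz, one_zpow]
  · intro h
    exact absurd (Finset.mem_univ _) h

end Pool.Agent.H443.NF
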