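import Mathlib
import Pool.Agent.H443.NF.Lat
import Pool.Agent.H443.NF.Val
import Pool.Graph.R_pool_sql_team_seeded_5cf16337.K3h28.NF.Bal

/-!
# Balanced generators
-/

set_option autoImplicit false

namespace Pool.Agent.H443.NF

open NumberField IsDedekindDomain Finset

variable (K : Type) [Field K] [NumberField K]

/-- `v = γ J` -/
def Gto (J : Ideal (𝓞 K)) (v : HeightOneSpectrum (𝓞 K)) (γ : K) : Prop :=
  γ ≠ 0 ∧ (∀ m ∈ J, ∃ α ∈ v.asIdeal, (α : K) = γ * m) ∧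
    (∀ α ∈ v.asIdeal, ∃ m ∈ J, (α : K) = γ * m)

variable {K} in
omit [NumberField K] in
theorem Gto.rto {J : Ideal (𝓞 K)} {v w : HeightOneSpectrum (𝓞 K)} {γ δ : K} (hγ : Gto K J v γ)
    (hδ : Gto K J w δ) : Rto K v w (δ / γ) := by
  refine ⟨div_ne_zero hδ.1 hγ.1, ?_, ?_⟩
  · intro β hβ
    obtain ⟨m, hm, h1⟩ := hγ.2.2 β hβ
    obtain ⟨α, hα, h2⟩ := hδ.2.1 m hm
    refine ⟨α, hα, ?_⟩
    have := hγ.1
    rw [h1, h2]
    field_simp
  · intro α hα
    obtain ⟨m, hm, h1⟩ := hδ.2.2 α hα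
    obtain ⟨β, hβ, h2⟩ := hγ.2.1 m hm
    refine ⟨β, hβ, ?_⟩
    have := hγ.1
    rw [h1, h2]
    field_simp

theorem exists_gen (c : ClassGroup (𝓞 K)) : ∃ (J : Ideal (𝓞 K)) (κ : ℝ), J ≠ ⊥ ∧ 0 < κ ∧
    ∀ v : HeightOneSpectrum (𝓞 K), cls K v = c →
      ∃ γ : K, Gto K J v γ ∧ ∀ w : InfinitePlace K,
        κ * ((Ideal.absNorm v.asIdeal : ℝ) / Ideal.absNorm J) ^
          ((Module.finrank ℚ K : ℝ)⁻¹) ≤ w γ := by
  classical
  obtain ⟨J, hJ⟩ := ClassGroup.mk0_surjective c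
  obtain ⟨κ, hκ, hbal⟩ := Pool.Agent.K3h28.NF.balanced K
  have hJ0 : (J : Ideal (𝓞 K)) ≠ ⊥ := nonZeroDivisors.coe_ne_zero J
  have hNJ : (0 : ℝ) < Ideal.absNorm (J : Ideal (𝓞 K)) := by
    exact_mod_cast Nat.pos_of_ne_zero (fun h => hJ0 (Ideal.absNorm_eq_zero_iff.1 h))
  refine ⟨J, κ, hJ0, hκ, ?_⟩
  set n := Module.finrank ℚ K with hn
  have hn0 : n ≠ 0 := Module.finrank_pos.ne'
  intro v hv
  have h1 : ClassGroup.mk0 ⟨v.asIdeal, mem_nonZeroDivisors_of_ne_zero v.ne_bot⟩ =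
      ClassGroup.mk0 J := by
    rw [hJ]; exact hv
  obtain ⟨a, b, ha, hb, hab⟩ := ClassGroup.mk0_eq_mk0_iff.1 h1
  simp only at hab
  -- `a v = b J`
  set N : ℕ := Ideal.absNorm (Ideal.span {a}) with hN
  have hNa : (N : 𝓞 K) ∈ Ideal.span {a} := Ideal.absNorm_mem _
  obtain ⟨a', ha'⟩ := Ideal.mem_span_singleton'.1 hNa
  have hN0 : N ≠ 0 := by
    rw [hN, Ne, Ideal.absNorm_eq_zero_iff, Ideal.span_singleton_eq_bot]
    exact ha
  have hN0R : (0 : ℝ) < N := by exact_mod_cast Nat.pos_of_ne_zero hN0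
  have ha'0 : a' ≠ 0 := by
    rintro rfl
    rw [zero_mul] at ha'
    exact hN0 (by exact_mod_cast ha'.symm)
  have haK : (a : K) ≠ 0 := by exact_mod_cast ha
  have hbK : (b : K) ≠ 0 := by exact_mod_cast hb
  have hNK : (N : K) ≠ 0 := by exact_mod_cast hN0
  have haN : (a' : K) * (a : K) = N := by
    have := congrArg (fun z : 𝓞 K => (z : K)) ha'
    simpa using this
  obtain ⟨u, hu⟩ := hbal (b * a') (mul_ne_zero hb ha'0)
  have huK : (((u : 𝓞 K)) : K) ≠ 0 := by exact_mod_cast u.ne_zero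
  set γ : K := ((u : 𝓞 K) : K) * ((b : K) / a) with hγ
  have hγ0 : γ ≠ 0 := mul_ne_zero huK (div_ne_zero hbK haK)
  refine ⟨γ, ⟨hγ0, ?_, ?_⟩, ?_⟩
  · intro m hm
    have h2 : b * m ∈ Ideal.span {a} * v.asIdeal := by
      rw [hab]
      exact Ideal.mul_mem_mul (Ideal.mem_span_singleton_self b) hm
    obtain ⟨z, hz, h3⟩ := Ideal.mem_span_singleton_mul.1 h2
    refine ⟨u * z, Ideal.mul_mem_left _ _ hz, ?_⟩
    have h4 : (a : K) * z = b * m := by
      have := congrArg (fun z : 𝓞 K => (z : K)) h3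
      simpa using this
    rw [hγ]
    push_cast
    rw [mul_assoc, div_mul_eq_mul_div, ← h4]
    field_simp
  · intro α hα
    have h2 : a * ((↑(u⁻¹) : 𝓞 K) * α) ∈ Ideal.span {b} * (J : Ideal (𝓞 K)) := by
      rw [← hab]
      exact Ideal.mul_mem_mul (Ideal.mem_span_singleton_self a) (Ideal.mul_mem_left _ _ hα)
    obtain ⟨z, hz, h3⟩ := Ideal.mem_span_singleton_mul.1 h2
    refine ⟨z, hz, ?_⟩
    have h4 : (b : K) * z = a * (((↑(u⁻¹) : 𝓞 K) : K) * α) := by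
      have := congrArg (fun z : 𝓞 K => (z : K)) h3
      simpa using this
    have h5 : ((u : 𝓞 K) : K) * ((↑(u⁻¹) : 𝓞 K) : K) = 1 := by
      rw [← map_mul, Units.mul_inv, map_one]
    rw [hγ, mul_assoc, div_mul_eq_mul_div, h4]
    rw [mul_div_cancel_left₀ _ haK, ← mul_assoc, h5, one_mul]
  · intro w
    have h2 := hu w
    have h3 : w ((((u : 𝓞 K) * (b * a') : 𝓞 K)) : K) = w γ * N := by
      have h4 : ((((u : 𝓞 K) * (b * a') : 𝓞 K)) : K) = γ * N := by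
        rw [hγ, ← haN]
        push_cast
        field_simp
      rw [h4, map_mul, InfinitePlace.map_natCast]
    rw [h3] at h2
    -- the norm
    have h4 : Ideal.absNorm (Ideal.span {a}) * Ideal.absNorm v.asIdeal =
        Ideal.absNorm (Ideal.span {b}) * Ideal.absNorm (J : Ideal (𝓞 K)) := by
      rw [← map_mul, ← map_mul, hab]
    have habs : ∀ z : 𝓞 K, ((|Algebra.norm ℚ (z : K)| : ℚ) : ℝ) =
        (Ideal.absNorm (Ideal.span {z}) : ℝ) := by
      intro z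
      rw [Ideal.absNorm_span_singleton, ← Algebra.coe_norm_int z]
      rw [Nat.cast_natAbs]
      push_cast
      rfl
    have h5 : (|Algebra.norm ℚ ((b * a' : 𝓞 K) : K)| : ℝ) =
        N ^ n * ((Ideal.absNorm v.asIdeal : ℝ) / Ideal.absNorm (J : Ideal (𝓞 K))) := by
      have h6 : ((|Algebra.norm ℚ ((b * a' : 𝓞 K) : K)| : ℚ) : ℝ) =
        (Ideal.absNorm (Ideal.span {b * a'}) : ℝ) := habs _
      have h7 : Ideal.absNorm (Ideal.span {b * a'}) * Ideal.absNorm (Ideal.span {a}) *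
          Ideal.absNorm (J : Ideal (𝓞 K)) =
          N ^ n * Ideal.absNorm v.asIdeal * Ideal.absNorm (Ideal.span {a}) := by
        have h8 : Ideal.absNorm (Ideal.span {b * a'}) * Ideal.absNorm (Ideal.span {a}) =
            Ideal.absNorm (Ideal.span {b}) * N ^ n := by
          rw [← map_mul, Ideal.span_singleton_mul_span_singleton, mul_assoc, ha',
            ← Ideal.span_singleton_mul_span_singleton, map_mul, Ideal.absNorm_span_natCast,
            RingOfIntegers.rank]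
        rw [h8]
        calc Ideal.absNorm (Ideal.span {b}) * N ^ n * Ideal.absNorm (J : Ideal (𝓞 K))
            = N ^ n * (Ideal.absNorm (Ideal.span {b}) * Ideal.absNorm (J : Ideal (𝓞 K))) := by ring
          _ = N ^ n * (Ideal.absNorm (Ideal.span {a}) * Ideal.absNorm v.asIdeal) := by rw [h4]
          _ = _ := by ring
      have h8 : Ideal.absNorm (Ideal.span {b * a'}) * Ideal.absNorm (J : Ideal (𝓞 K)) =
          N ^ n * Ideal.absNorm v.asIdeal := by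
        have : (Ideal.absNorm (Ideal.span {b * a'}) * Ideal.absNorm (J : Ideal (𝓞 K))) * N =
          (N ^ n * Ideal.absNorm v.asIdeal) * N := by
          calc _ = Ideal.absNorm (Ideal.span {b * a'}) * N * Ideal.absNorm (J : Ideal (𝓞 K)) := by ring
            _ = _ := h7
        exact Nat.eq_of_mul_eq_mul_right (Nat.pos_of_ne_zero hN0) this
      have h9 : (Ideal.absNorm (Ideal.span {b * a'}) : ℝ) * Ideal.absNorm (J : Ideal (𝓞 K)) =
          N ^ n * Ideal.absNorm v.asIdeal := by exact_mod_cast h8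
      have h10 : (|Algebra.norm ℚ ((b * a' : 𝓞 K) : K)| : ℝ) =
        (Ideal.absNorm (Ideal.span {b * a'}) : ℝ) := by
        rw [← h6]
        push_cast
        rfl
      rw [h10, ← mul_div_assoc, eq_div_iff hNJ.ne']
      exact h9
    rw [h5] at h2
    set t : ℝ := (Ideal.absNorm v.asIdeal : ℝ) / Ideal.absNorm (J : Ideal (𝓞 K)) with ht
    have ht0 : 0 ≤ t := by positivity
    have h6 : ((N : ℝ) ^ n * t) ^ ((n : ℝ)⁻¹) = N * t ^ ((n : ℝ)⁻¹) := by
      rw [Real.mul_rpow (by positivity) ht0, Real.pow_rpow_inv_natCast hN0R.le hn0]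
    rw [h6] at h2
    have h7 : κ * t ^ ((n : ℝ)⁻¹) ≤ w γ := by
      have : (κ * t ^ ((n : ℝ)⁻¹)) * N ≤ w γ * N := by
        calc _ = κ * (N * t ^ ((n : ℝ)⁻¹)) := by ring
          _ ≤ _ := h2
      exact le_of_mul_le_mul_right this hN0R
    exact h7

/-- All the prime ideals have balanced generators over their class. -/
theorem exists_gens : ∃ (J : ClassGroup (𝓞 K) → Ideal (𝓞 K)) (γ : HeightOneSpectrum (𝓞 K) → K),
    (∀ c, J c ≠ ⊥) ∧ (∀ v, Gto K (J (cls K v)) v (γ v)) ∧ ∀ M : ℝ, ∃ y : ℕ,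
      ∀ v : HeightOneSpectrum (𝓞 K), y < Ideal.absNorm v.asIdeal →
        ∀ w : InfinitePlace K, M ≤ w (γ v) := by
  classical
  choose J κ hJ hκ hgen using exists_gen K
  choose γ hγ1 hγ2 using fun v : HeightOneSpectrum (𝓞 K) => hgen (cls K v) v rfl
  refine ⟨J, γ, hJ, hγ1, fun M => ?_⟩
  set n := Module.finrank ℚ K with hn
  have hn0 : n ≠ 0 := Module.finrank_pos.ne'
  have hNJ : ∀ c, (0 : ℝ) < Ideal.absNorm (J c) := fun c => by
    exact_mod_cast Nat.pos_of_ne_zero (fun h => hJ c (Ideal.absNorm_eq_zero_iff.1 h))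
  choose Y hY using fun c : ClassGroup (𝓞 K) => exists_nat_ge ((max M 0 / κ c) ^ n * Ideal.absNorm (J c))
  refine ⟨univ.sup Y, fun v hv w => ?_⟩
  set c := cls K v with hc
  set t : ℝ := (Ideal.absNorm v.asIdeal : ℝ) / Ideal.absNorm (J c) with ht
  have h8 : (max M 0 / κ c) ^ n ≤ t := by
    rw [ht, le_div_iff₀ (hNJ c)]
    refine (hY c).trans ?_
    have h1 : Y c ≤ univ.sup Y := Finset.le_sup (Finset.mem_univ c)
    exact_mod_cast h1.trans hv.le
  have h9 : max M 0 / κ c ≤ t ^ ((n : ℝ)⁻¹) := by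
    have h11 := hκ c
    have h10 : ((max M 0 / κ c) ^ n) ^ ((n : ℝ)⁻¹) = max M 0 / κ c :=
      Real.pow_rpow_inv_natCast (by positivity) hn0
    rw [← h10]
    exact Real.rpow_le_rpow (by positivity) h8 (by positivity)
  rw [div_le_iff₀ (hκ c)] at h9
  refine (le_max_left M 0).trans (h9.trans ?_)
  rw [mul_comm]
  exact hγ2 v w

/-- Dividing by a number with large conjugates. -/
theorem coord_bound : ∃ C : ℝ, 0 < C ∧ ∀ M : ℝ, C ≤ M → ∀ (α m : 𝓞 K) (x : ℕ), α ∈ Om K x →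
    (∀ w : InfinitePlace K, M * w (m : K) ≤ w (α : K)) → m ∈ Om K x := by
  classical
  set b := integralBasis K with hb
  set bd := b.traceDual with hbd
  set C : ℝ := 1 + ∑ i, ∑ σ : K →ₐ[ℚ] ℂ, ∑ j, ‖σ (b j)‖ * ‖σ (bd i)‖ with hC
  have hC0 : 0 < C := by positivity
  refine ⟨C, hC0, fun M hM α m x hα h => ?_⟩
  have hM0 : 0 < M := lt_of_lt_of_le hC0 hM
  rw [mem_Om] at hα ⊢
  intro i
  have h1 : ∀ σ : K →ₐ[ℚ] ℂ, ‖σ (α : K)‖ ≤ x * ∑ j, ‖σ (b j)‖ := by
    intro σ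
    have h2 : (α : K) = ∑ j, (((RingOfIntegers.basis K).repr α j : ℤ) : K) * b j := by
      have h3 := b.sum_repr (α : K)
      rw [← h3]
      refine Finset.sum_congr rfl fun j _ => ?_
      rw [hb, integralBasis_repr_apply, Algebra.smul_def]
      simp
    rw [h2, map_sum, Finset.mul_sum]
    refine (norm_sum_le _ _).trans (Finset.sum_le_sum fun j _ => ?_)
    rw [map_mul, norm_mul, map_intCast]
    apply mul_le_mul_of_nonneg_right _ (norm_nonneg _)
    have h3 := hα j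
    rw [Complex.norm_intCast]
    exact_mod_cast h3
  have h2 : ∀ σ : K →ₐ[ℚ] ℂ, M * ‖σ (m : K)‖ ≤ x * ∑ j, ‖σ (b j)‖ := by
    intro σ
    refine le_trans ?_ (h1 σ)
    exact h (InfinitePlace.mk (σ : K →+* ℂ))
  have h3 : (((RingOfIntegers.basis K).repr m i : ℤ) : ℚ) = Algebra.trace ℚ K ((m : K) * bd i) := by
    have h4 : b.repr (m : K) i = Algebra.trace ℚ K ((m : K) * bd i) := by
      have h5 := bd.traceDual_repr_apply (m : K) i
      rw [hbd, Module.Basis.traceDual_traceDual] at h5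
      rw [h5]
      rfl
    rw [← h4, hb, integralBasis_repr_apply]
    rfl
  have h4 : ((((RingOfIntegers.basis K).repr m i : ℤ)) : ℂ) = ∑ σ : K →ₐ[ℚ] ℂ, σ ((m : K) * bd i) := by
    rw [← trace_eq_sum_embeddings (K := ℚ) ℂ, ← h3]
    simp
  have h5 : (|((RingOfIntegers.basis K).repr m i : ℤ)| : ℝ) ≤
      ∑ σ : K →ₐ[ℚ] ℂ, ‖σ (m : K)‖ * ‖σ (bd i)‖ := by
    have h6 : ((|((RingOfIntegers.basis K).repr m i : ℤ)| : ℤ) : ℝ) =
      ‖((((RingOfIntegers.basis K).repr m i : ℤ)) : ℂ)‖ := by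
      rw [Complex.norm_intCast]
      push_cast
      rfl
    push_cast at h6
    rw [h6, h4]
    refine (norm_sum_le _ _).trans (Finset.sum_le_sum fun σ _ => ?_)
    rw [map_mul, norm_mul]
  have h6 : M * (|((RingOfIntegers.basis K).repr m i : ℤ)| : ℝ) ≤ M * x := by
    calc M * (|((RingOfIntegers.basis K).repr m i : ℤ)| : ℝ)
        ≤ M * ∑ σ : K →ₐ[ℚ] ℂ, ‖σ (m : K)‖ * ‖σ (bd i)‖ := mul_le_mul_of_nonneg_left h5 hM0.le
      _ = ∑ σ : K →ₐ[ℚ] ℂ, (M * ‖σ (m : K)‖) * ‖σ (bd i)‖ := by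
          rw [Finset.mul_sum]
          refine Finset.sum_congr rfl fun σ _ => by ring
      _ ≤ ∑ σ : K →ₐ[ℚ] ℂ, (x * ∑ j, ‖σ (b j)‖) * ‖σ (bd i)‖ :=
          Finset.sum_le_sum fun σ _ => mul_le_mul_of_nonneg_right (h2 σ) (norm_nonneg _)
      _ = x * ∑ σ : K →ₐ[ℚ] ℂ, ∑ j, ‖σ (b j)‖ * ‖σ (bd i)‖ := by
          rw [Finset.mul_sum]
          refine Finset.sum_congr rfl fun σ _ => ?_
          rw [mul_assoc, Finset.sum_mul]
      _ ≤ x * C := by
          apply mul_le_mul_of_nonneg_left _ (Nat.cast_nonneg _)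
          have h7 : ∑ σ : K →ₐ[ℚ] ℂ, ∑ j, ‖σ (b j)‖ * ‖σ (bd i)‖ ≤
            ∑ i, ∑ σ : K →ₐ[ℚ] ℂ, ∑ j, ‖σ (b j)‖ * ‖σ (bd i)‖ :=
            Finset.single_le_sum (f := fun i => ∑ σ : K →ₐ[ℚ] ℂ, ∑ j, ‖σ (b j)‖ * ‖σ (bd i)‖)
              (fun _ _ => by positivity) (Finset.mem_univ i)
          rw [hC]
          linarith
      _ ≤ M * x := by
          rw [mul_comm]
          exact mul_le_mul_of_nonneg_right hM (Nat.cast_nonneg _)
  have h7 := le_of_mul_le_mul_left h6 hM0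
  exact_mod_cast h7

end Pool.Agent.H443.NF
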