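import Mathlib
import Pool.Agent.H443.NF.Gen
import Pool.Graph.R_pool_sql_team_seeded_5cf16337.K3h28.NF.TK

/-!
# Multiplicative cubes in dense sets of integers of a number field
-/

set_option autoImplicit false

namespace Pool.Agent.H443.NF

open NumberField IsDedekindDomain Finset

variable (K : Type) [Field K] [NumberField K]

open Classical in
theorem inf_density (v w : HeightOneSpectrum (𝓞 K)) (hvw : v ≠ w) (η : ℝ) (hη : 0 < η) :
    ∃ x₀ : ℕ, ∀ x ≥ x₀, ((((Om K x).filter (· ∈ v.asIdeal)) ∩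
      ((Om K x).filter (· ∈ w.asIdeal))).card : ℝ) ≤
      (1 + η) * (1 / Ideal.absNorm v.asIdeal * (1 / Ideal.absNorm w.asIdeal)) * (Om K x).card := by
  classical
  have hcop : IsCoprime v.asIdeal w.asIdeal := by
    rw [Ideal.isCoprime_iff_sup_eq]
    exact Ideal.IsMaximal.coprime_of_ne v.isMaximal w.isMaximal
      (fun h => hvw (HeightOneSpectrum.ext h))
  have h0 : v.asIdeal ⊓ w.asIdeal = v.asIdeal * w.asIdeal := (Ideal.mul_eq_inf_of_isCoprime hcop).symm
  have hne : v.asIdeal ⊓ w.asIdeal ≠ ⊥ := by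
    rw [h0]
    exact mul_ne_zero v.ne_bot w.ne_bot
  obtain ⟨x₀, hx₀⟩ := ideal_density K (v.asIdeal ⊓ w.asIdeal) hne η hη
  refine ⟨x₀, fun x hx => ?_⟩
  have h1 := (hx₀ x hx).2
  have h2 : ((Om K x).filter (· ∈ v.asIdeal)) ∩ ((Om K x).filter (· ∈ w.asIdeal)) =
      (Om K x).filter (· ∈ v.asIdeal ⊓ w.asIdeal) := by
    ext a
    simp only [Finset.mem_inter, Finset.mem_filter, Submodule.mem_inf]
    tauto
  rw [h2]
  refine h1.trans (le_of_eq ?_)
  rw [h0, map_mul]
  push_cast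
  ring

/-- the number of the box -/
noncomputable def bx (δ₁ : ℝ) (z : ℂ) : ℕ := ⌊(Complex.arg z + Real.pi) / δ₁⌋₊

theorem bx_lt (δ₁ : ℝ) (hδ₁ : 0 < δ₁) (z : ℂ) : bx δ₁ z < ⌊2 * Real.pi / δ₁⌋₊ + 1 := by
  unfold bx
  rw [Nat.lt_succ_iff]
  apply Nat.floor_mono
  have := Complex.arg_le_pi z
  gcongr
  linarith

theorem bx_eq (δ₁ : ℝ) (hδ₁ : 0 < δ₁) (z w : ℂ) (h : bx δ₁ z = bx δ₁ w) :
    |Complex.arg w - Complex.arg z| < δ₁ := by
  unfold bx at h
  have hz : 0 ≤ (Complex.arg z + Real.pi) / δ₁ := by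
    have := Complex.neg_pi_lt_arg z
    exact div_nonneg (by linarith) hδ₁.le
  have hw : 0 ≤ (Complex.arg w + Real.pi) / δ₁ := by
    have := Complex.neg_pi_lt_arg w
    exact div_nonneg (by linarith) hδ₁.le
  have h1 := Nat.floor_le hz
  have h2 := Nat.lt_floor_add_one ((Complex.arg z + Real.pi) / δ₁)
  have h3 := Nat.floor_le hw
  have h4 := Nat.lt_floor_add_one ((Complex.arg w + Real.pi) / δ₁)
  rw [h] at h1 h2
  rw [le_div_iff₀ hδ₁] at h1 h3
  rw [div_lt_iff₀ hδ₁] at h2 h4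
  rw [abs_lt]
  constructor <;> nlinarith

open Classical in
/-- **One step.** -/
theorem one_step (δ₁ : ℝ) (hδ₁ : 0 < δ₁) : ∃ J : Ideal (𝓞 K), ∀ (δ : ℝ) (_ : 0 < δ) (y : ℕ),
    ∃ (P : Finset (HeightOneSpectrum (𝓞 K))) (γ : HeightOneSpectrum (𝓞 K) → K) (δ' : ℝ) (x₀ : ℕ),
      0 < δ' ∧ (∀ v ∈ P, Ideal.absNorm v.asIdeal = chr K v ∧ y < chr K v ∧ Gto K J v (γ v)) ∧
      (∀ v ∈ P, ∀ w ∈ P, ∀ ρ : K →+* ℂ, |Complex.arg (ρ (γ w)) - Complex.arg (ρ (γ v))| < δ₁) ∧
      Set.InjOn (chr K) P ∧ ∀ x ≥ x₀, ∀ A : Finset (𝓞 K), A ⊆ Om K x →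
        δ * (Om K x).card ≤ A.card → ∃ v ∈ P, ∃ w ∈ P, v ≠ w ∧
          δ' * (Om K x).card ≤ ((Om K x).filter (fun m : 𝓞 K =>
            (∃ α ∈ A, (α : K) = γ v * m) ∧ (∃ α ∈ A, (α : K) = γ w * m))).card := by
  classical
  obtain ⟨Jc, γ, hJc, hγJ, hγM⟩ := exists_gens K
  let χ : HeightOneSpectrum (𝓞 K) →
      ClassGroup (𝓞 K) × ((K →+* ℂ) → Fin (⌊2 * Real.pi / δ₁⌋₊ + 1)) := fun v =>
    (cls K v, fun ρ => ⟨bx δ₁ (ρ (γ v)), bx_lt δ₁ hδ₁ _⟩)
  obtain ⟨c, hc⟩ := exists_primes K χ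
  obtain ⟨C, hC0, hC⟩ := coord_bound K
  set J := Jc c.1 with hJdef
  refine ⟨J, fun δ hδ y => ?_⟩
  obtain ⟨y₁, hy₁⟩ := hγM (max C 1)
  obtain ⟨P, hP', hinj, hsum⟩ := hc (16 / δ ^ 2) (max y y₁)
  have hcls : ∀ v ∈ P, cls K v = c.1 := fun v hv => congrArg Prod.fst (hP' v hv).2.2
  have hbox : ∀ v ∈ P, ∀ ρ : K →+* ℂ, bx δ₁ (ρ (γ v)) = (c.2 ρ : ℕ) := fun v hv ρ =>
    congrArg Fin.val (congrFun (congrArg Prod.snd (hP' v hv).2.2) ρ)
  have hP : ∀ v ∈ P, Ideal.absNorm v.asIdeal = chr K v ∧ max y y₁ < chr K v ∧ cls K v = c.1 :=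
    fun v hv => ⟨(hP' v hv).1, (hP' v hv).2.1, hcls v hv⟩
  have hγ : ∀ v : HeightOneSpectrum (𝓞 K), v ∈ P →
      Gto K J v (γ v) ∧ ∀ w : InfinitePlace K, max C 1 ≤ w (γ v) := by
    intro v hv
    obtain ⟨h1, h2, h3⟩ := hP v hv
    refine ⟨?_, hy₁ v ?_⟩
    · rw [hJdef, ← h3]
      exact hγJ v
    · rw [h1]
      exact lt_of_le_of_lt (le_max_right _ _) h2
  set μ : ℝ := ∑ v ∈ P, (1 : ℝ) / chr K v with hμ
  have hμ0 : 0 < μ := lt_of_lt_of_le (by positivity) hsum
  have hPne : P.Nonempty := by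
    rw [Finset.nonempty_iff_ne_empty]
    intro h
    rw [hμ, h, Finset.sum_empty] at hμ0
    exact lt_irrefl _ hμ0
  have hPc : (0 : ℝ) < P.card := by exact_mod_cast Finset.card_pos.2 hPne
  set η : ℝ := 1 / (3 * μ + 1) with hη
  have hη0 : 0 < η := by positivity
  have hη1 : η ≤ 1 := by
    rw [hη, div_le_one (by positivity)]
    linarith
  have hημ : 3 * η * μ ≤ 1 := by
    rw [hη]
    rw [show 3 * (1 / (3 * μ + 1)) * μ = (3 * μ) / (3 * μ + 1) by ring]
    rw [div_le_one (by positivity)]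
    linarith
  have hd1 : ∀ v : HeightOneSpectrum (𝓞 K), ∃ x₀ : ℕ, ∀ x ≥ x₀,
      (1 - η) * (1 / Ideal.absNorm v.asIdeal) * (Om K x).card ≤ ((Om K x).filter (· ∈ v.asIdeal)).card ∧
      (((Om K x).filter (· ∈ v.asIdeal)).card : ℝ) ≤
        (1 + η) * (1 / Ideal.absNorm v.asIdeal) * (Om K x).card :=
    fun v => ideal_density K v.asIdeal v.ne_bot η hη0
  choose X hX using hd1
  have hd2 : ∀ p : HeightOneSpectrum (𝓞 K) × HeightOneSpectrum (𝓞 K), ∃ x₀ : ℕ, p.1 ≠ p.2 →
      ∀ x ≥ x₀, ((((Om K x).filter (· ∈ p.1.asIdeal)) ∩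
      ((Om K x).filter (· ∈ p.2.asIdeal))).card : ℝ) ≤
      (1 + η) * (1 / Ideal.absNorm p.1.asIdeal * (1 / Ideal.absNorm p.2.asIdeal)) * (Om K x).card := by
    intro p
    by_cases hp : p.1 = p.2
    · exact ⟨0, fun h => absurd hp h⟩
    · obtain ⟨x₀, hx₀⟩ := inf_density K p.1 p.2 hp η hη0
      exact ⟨x₀, fun _ => hx₀⟩
  choose X' hX' using hd2
  refine ⟨P, γ, μ / (P.card : ℝ) ^ 2, max (P.sup X) ((P ×ˢ P).sup X'), by positivity, ?_,
    fun v hv w hw ρ => bx_eq δ₁ hδ₁ _ _ ((hbox v hv ρ).trans (hbox w hw ρ).symm), hinj, ?_⟩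
  · intro v hv
    obtain ⟨h1, h2, h3⟩ := hP v hv
    exact ⟨h1, lt_of_le_of_lt (le_max_left _ _) h2, (hγ v hv).1⟩
  · intro x hx A hA hAc
    have hΩ : 0 < (Om K x).card := by rw [card_Om]; positivity
    set D : HeightOneSpectrum (𝓞 K) → Finset (𝓞 K) := fun v => (Om K x).filter (· ∈ v.asIdeal) with hD
    set Cc : HeightOneSpectrum (𝓞 K) → Finset (𝓞 K) := fun v =>
      (Om K x).filter (fun m => m ∈ J ∧ ∃ α ∈ A, (α : K) = γ v * m) with hCc
    have hchr : ∀ v ∈ P, (Ideal.absNorm v.asIdeal : ℝ) = chr K v := fun v hv => by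
      rw [(hP v hv).1]
    obtain ⟨v, hv, w, hw, hvw, h⟩ := Pool.Agent.K3h28.NF.turan (Om K x) P D Cc
      (fun v => (1 : ℝ) / chr K v) η δ A hΩ
      (fun v _ => by positivity) hη0.le hη1 hημ hδ (by
        rw [div_le_iff₀ (by positivity)] at hsum
        linarith) (fun v _ => Finset.filter_subset _ _)
      (fun v hv => by
        have h1 := (hX v x (le_trans (Finset.le_sup hv) ((le_max_left _ _).trans hx))).2
        rw [hchr v hv] at h1
        exact h1)
      (fun v hv => by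
        have h1 := (hX v x (le_trans (Finset.le_sup hv) ((le_max_left _ _).trans hx))).1
        rw [hchr v hv] at h1
        exact h1)
      (fun v hv w hw hvw => by
        have h1 := hX' (v, w) hvw x (le_trans (Finset.le_sup (Finset.mk_mem_product hv hw))
          ((le_max_right _ _).trans hx))
        simp only [hchr v hv, hchr w hw] at h1
        exact h1) hA hAc (fun v _ => Finset.filter_subset _ _) (fun v hv => by
        -- the bijection
        have hγv := (hγ v hv).1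
        have hγv' := (hγ v hv).2
        refine Finset.card_bij' (fun m hm => (Finset.mem_filter.1 hm).2.2.choose)
          (fun α hα => (hγv.2.2 α (Finset.mem_filter.1 (Finset.mem_inter.1 hα).2).2).choose) ?_ ?_ ?_ ?_
        · intro m hm
          have h1 := (Finset.mem_filter.1 hm).2.2.choose_spec
          set α := (Finset.mem_filter.1 hm).2.2.choose
          rw [Finset.mem_inter, hD, Finset.mem_filter]
          refine ⟨h1.1, hA h1.1, ?_⟩
          obtain ⟨β, hβ, h2⟩ := hγv.2.1 m (Finset.mem_filter.1 hm).2.1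
          have h3 : α = β := by
            apply RingOfIntegers.coe_injective
            exact h1.2.trans h2.symm
          rw [h3]
          exact hβ
        · intro α hα
          have h1 := (hγv.2.2 α (Finset.mem_filter.1 (Finset.mem_inter.1 hα).2).2).choose_spec
          set m := (hγv.2.2 α (Finset.mem_filter.1 (Finset.mem_inter.1 hα).2).2).choose
          rw [hCc, Finset.mem_filter]
          have hαA := (Finset.mem_inter.1 hα).1
          refine ⟨?_, h1.1, α, hαA, h1.2⟩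
          refine hC (max C 1) (le_max_left _ _) α m x (hA hαA) ?_
          intro w
          rw [h1.2, map_mul]
          exact mul_le_mul_of_nonneg_right (hγv' w) (apply_nonneg w _)
        · intro m hm
          have h1 := (Finset.mem_filter.1 hm).2.2.choose_spec
          set α := (Finset.mem_filter.1 hm).2.2.choose
          have hαv : α ∈ v.asIdeal := by
            obtain ⟨β, hβ, h2⟩ := hγv.2.1 m (Finset.mem_filter.1 hm).2.1
            have h3 : α = β := by
              apply RingOfIntegers.coe_injective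
              exact h1.2.trans h2.symm
            rw [h3]
            exact hβ
          have h2 := (hγv.2.2 α hαv).choose_spec
          apply RingOfIntegers.coe_injective
          exact mul_left_cancel₀ hγv.1 (h2.2.symm.trans h1.2)
        · intro α hα
          have h1 := (hγv.2.2 α (Finset.mem_filter.1 (Finset.mem_inter.1 hα).2).2).choose_spec
          set m := (hγv.2.2 α (Finset.mem_filter.1 (Finset.mem_inter.1 hα).2).2).choose
          have h2 : ∃ β ∈ A, (β : K) = γ v * m := ⟨α, (Finset.mem_inter.1 hα).1, h1.2⟩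
          apply RingOfIntegers.coe_injective
          exact (h2.choose_spec.2).trans h1.2.symm)
    refine ⟨v, hv, w, hw, hvw, h.trans ?_⟩
    have h1 : Cc v ∩ Cc w ⊆ (Om K x).filter (fun m : 𝓞 K =>
            (∃ α ∈ A, (α : K) = γ v * m) ∧ (∃ α ∈ A, (α : K) = γ w * m)) := by
      intro m hm
      rw [Finset.mem_inter, hCc, Finset.mem_filter, Finset.mem_filter] at hm
      rw [Finset.mem_filter]
      exact ⟨hm.1.1, hm.1.2.2, hm.2.2.2⟩
    exact_mod_cast Finset.card_le_card h1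

/-- **Cubes.** -/
theorem cube (δ₁ : ℝ) (hδ₁ : 0 < δ₁) : ∃ J : Ideal (𝓞 K), ∀ (r : ℕ) (δ : ℝ) (_ : 0 < δ) (y : ℕ), ∃ x₀ : ℕ, ∀ x ≥ x₀,
    ∀ A : Finset (𝓞 K), A ⊆ Om K x → δ * (Om K x).card ≤ A.card →
      ∃ (a : 𝓞 K) (v w : Fin r → HeightOneSpectrum (𝓞 K)) (ξ ζ : Fin r → K),
        (∀ i, Gto K J (v i) (ξ i)) ∧ (∀ i, Gto K J (w i) (ζ i)) ∧
        (∀ i, Ideal.absNorm (w i).asIdeal = chr K (w i)) ∧
        (∀ i, y < chr K (v i) ∧ y < chr K (w i)) ∧ (∀ i j, chr K (v i) ≠ chr K (w j)) ∧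
        (∀ i j, i ≠ j → chr K (w i) ≠ chr K (w j)) ∧
        (∀ i, ∀ ρ : K →+* ℂ, |Complex.arg (ρ (ζ i)) - Complex.arg (ρ (ξ i))| < δ₁) ∧
        ∀ S : Finset (Fin r), ∃ α ∈ A, (α : K) = a * ∏ i, (if i ∈ S then ζ i else ξ i) := by
  classical
  obtain ⟨J, hJ⟩ := one_step K δ₁ hδ₁
  refine ⟨J, fun r => ?_⟩
  induction r with
  | zero =>
    intro δ hδ y
    refine ⟨0, fun x _ A _ hAc => ?_⟩
    have hΩ : (0 : ℝ) < (Om K x).card := by rw [card_Om]; positivity
    have h1 : (0 : ℝ) < A.card := lt_of_lt_of_le (by positivity) hAc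
    obtain ⟨a, ha⟩ := Finset.card_pos.1 (by exact_mod_cast h1 : 0 < A.card)
    refine ⟨a, Fin.elim0, Fin.elim0, Fin.elim0, Fin.elim0, fun i => i.elim0, fun i => i.elim0,
      fun i => i.elim0, fun i => i.elim0, fun i => i.elim0, fun i => i.elim0, fun i => i.elim0,
      fun S => ⟨a, ha, ?_⟩⟩
    simp
  | succ r ih =>
    intro δ hδ y
    obtain ⟨P, γ, δ', x₁, hδ', hP, hargP, hinj, hstep⟩ := hJ δ hδ y
    obtain ⟨x₂, hx₂⟩ := ih δ' hδ' (max y (P.sup (chr K)))
    refine ⟨max x₁ x₂, fun x hx A hA hAc => ?_⟩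
    obtain ⟨v₀, hv₀, w₀, hw₀, hvw₀, hcard⟩ := hstep x ((le_max_left _ _).trans hx) A hA hAc
    obtain ⟨a, v, w, ξ, ζ, h1, h2, h3, h4, h5, h6, harg, h7⟩ := hx₂ x ((le_max_right _ _).trans hx) _
      (Finset.filter_subset _ _) hcard
    have hsup : ∀ u ∈ P, chr K u ≤ max y (P.sup (chr K)) := fun u hu =>
      (Finset.le_sup hu).trans (le_max_right _ _)
    refine ⟨a, Fin.cons v₀ v, Fin.cons w₀ w, Fin.cons (γ v₀) ξ, Fin.cons (γ w₀) ζ,
      ?_, ?_, ?_, ?_, ?_, ?_, ?_, ?_⟩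
    · intro i
      refine Fin.cases ?_ (fun i => ?_) i
      · simpa using (hP v₀ hv₀).2.2
      · simpa using h1 i
    · intro i
      refine Fin.cases ?_ (fun i => ?_) i
      · simpa using (hP w₀ hw₀).2.2
      · simpa using h2 i
    · intro i
      refine Fin.cases ?_ (fun i => ?_) i
      · simpa using (hP w₀ hw₀).1
      · simpa using h3 i
    · intro i
      refine Fin.cases ?_ (fun i => ?_) i
      · simpa using ⟨(hP v₀ hv₀).2.1, (hP w₀ hw₀).2.1⟩
      · simp only [Fin.cons_succ]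
        exact ⟨lt_of_le_of_lt (le_max_left _ _) (h4 i).1, lt_of_le_of_lt (le_max_left _ _) (h4 i).2⟩
    · intro i j
      refine Fin.cases ?_ (fun i => ?_) i
      · refine Fin.cases ?_ (fun j => ?_) j
        · simp only [Fin.cons_zero]
          exact fun h => hvw₀ (hinj hv₀ hw₀ h)
        · simp only [Fin.cons_zero, Fin.cons_succ]
          exact (lt_of_le_of_lt (hsup v₀ hv₀) (h4 j).2).ne
      · refine Fin.cases ?_ (fun j => ?_) j
        · simp only [Fin.cons_zero, Fin.cons_succ]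
          exact (lt_of_le_of_lt (hsup w₀ hw₀) (h4 i).1).ne'
        · simp only [Fin.cons_succ]
          exact h5 i j
    · intro i j
      refine Fin.cases ?_ (fun i => ?_) i
      · refine Fin.cases ?_ (fun j => ?_) j
        · intro h; exact absurd rfl h
        · intro _
          simp only [Fin.cons_zero, Fin.cons_succ]
          exact (lt_of_le_of_lt (hsup w₀ hw₀) (h4 j).2).ne
      · refine Fin.cases ?_ (fun j => ?_) j
        · intro _
          simp only [Fin.cons_zero, Fin.cons_succ]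
          exact (lt_of_le_of_lt (hsup w₀ hw₀) (h4 i).2).ne'
        · intro hij
          simp only [Fin.cons_succ]
          exact h6 i j (fun h => hij (by rw [h]))
    · intro i ρ
      refine Fin.cases ?_ (fun i => ?_) i
      · simp only [Fin.cons_zero]
        exact hargP v₀ hv₀ w₀ hw₀ ρ
      · simp only [Fin.cons_succ]
        exact harg i ρ
    · intro S
      obtain ⟨β, hβ, hβ'⟩ := h7 (univ.filter (fun i : Fin r => i.succ ∈ S))
      rw [Finset.mem_filter] at hβ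
      have h8 : ∏ i : Fin (r + 1), (if i ∈ S then (Fin.cons (γ w₀) ζ : Fin (r + 1) → K) i
          else (Fin.cons (γ v₀) ξ : Fin (r + 1) → K) i) =
          (if (0 : Fin (r + 1)) ∈ S then γ w₀ else γ v₀) *
          ∏ i : Fin r, (if i ∈ univ.filter (fun i : Fin r => i.succ ∈ S) then ζ i else ξ i) := by
        rw [Fin.prod_univ_succ]
        simp only [Fin.cons_zero, Fin.cons_succ, Finset.mem_filter, Finset.mem_univ, true_and]
      rw [h8]
      by_cases h0 : (0 : Fin (r + 1)) ∈ S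
      · rw [if_pos h0]
        obtain ⟨α, hα, hα'⟩ := hβ.2.2
        refine ⟨α, hα, ?_⟩
        rw [hα', hβ']
        ring
      · rw [if_neg h0]
        obtain ⟨α, hα, hα'⟩ := hβ.2.1
        refine ⟨α, hα, ?_⟩
        rw [hα', hβ']
        ring

end Pool.Agent.H443.NF
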