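import Mathlib
import Pool.Graph.R_seed8.H297R2.Tuples
import Pool.Graph.R_pool_sql_team_seeded_5cf16337.K3h28.NF.VHyp

/-!
# From one variable to tuples
-/

set_option autoImplicit false

namespace Pool.Agent.H443.NF

open Finset
open Pool.Agent.H301R2.SSE (QB mem_QB)
open Pool.Agent.H297R2 (NoRel)

/-- reindexing -/
def tupEquiv (σ : Type) (k : ℕ) (M : Fin (k + 1) → Type) :
    (σ ⊕ M 0) ⊕ (Σ j : Fin k, M j.succ) ≃ σ ⊕ (Σ j : Fin (k + 1), M j) where
  toFun s := match s with
    | Sum.inl (Sum.inl i) => Sum.inl i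
    | Sum.inl (Sum.inr c) => Sum.inr ⟨0, c⟩
    | Sum.inr ⟨j, c⟩ => Sum.inr ⟨j.succ, c⟩
  invFun s := match s with
    | Sum.inl i => Sum.inl (Sum.inl i)
    | Sum.inr ⟨j, c⟩ => Fin.cases (motive := fun j => M j → (σ ⊕ M 0) ⊕ (Σ j : Fin k, M j.succ))
        (fun c => Sum.inl (Sum.inr c)) (fun j c => Sum.inr ⟨j, c⟩) j c
  left_inv s := by
    rcases s with (i | c) | ⟨j, c⟩ <;> simp
  right_inv s := by
    rcases s with i | ⟨j, c⟩
    · rfl
    · revert c
      refine Fin.cases ?_ (fun j => ?_) j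
      · intro c; simp
      · intro c; simp

/-- a family of objects with attached numbers -/
structure Fam where
  /-- the objects -/
  X : Type
  /-- the index set of the numbers -/
  M : Type
  /-- finite -/
  instM : Fintype M
  /-- parameters -/
  S : Type
  /-- the boxes -/
  Ω : ℕ → Finset X
  /-- admissible objects -/
  good : X → Prop
  /-- the numbers -/
  L : S → X → M → ℂ

attribute [instance] Fam.instM

open Classical in
/-- almost all objects are not exceptional -/
def Fam.Dense (F : Fam) (D : ℕ) : Prop :=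
  ∀ (σ : Type) [Fintype σ] (ε : ℝ), 0 < ε → ∃ N₀ : ℕ, ∀ N ≥ N₀, ∀ t : σ → ℂ,
    NoRel QB D t → ∀ s : F.S, (((F.Ω N).filter fun x => F.good x ∧
      ¬ NoRel QB D (Sum.elim t (F.L s x))).card : ℝ) ≤ ε * (F.Ω N).card

theorem sum_split {α : Type} (Ω A : Finset α) (hA : A ⊆ Ω) (f : α → ℝ) (Z e : ℝ)
    (h1 : ∀ a ∈ Ω, f a ≤ Z) (h2 : ∀ a ∈ Ω, a ∉ A → f a ≤ e) (he : 0 ≤ e) (_hZ : 0 ≤ Z) :
    ∑ a ∈ Ω, f a ≤ A.card * Z + Ω.card * e := by
  classical
  calc ∑ a ∈ Ω, f a ≤ ∑ a ∈ Ω, ((if a ∈ A then Z else 0) + e) := by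
        apply Finset.sum_le_sum
        intro a ha
        by_cases haA : a ∈ A
        · rw [if_pos haA]
          have := h1 a ha
          linarith
        · rw [if_neg haA, zero_add]
          exact h2 a ha haA
    _ = _ := by
        rw [Finset.sum_add_distrib, ← Finset.sum_filter, Finset.filter_mem_eq_inter,
          Finset.inter_eq_right.2 hA, Finset.sum_const, Finset.sum_const, nsmul_eq_mul, nsmul_eq_mul]

open Classical in
theorem tuples (D : ℕ) (k : ℕ) : ∀ (F : Fin k → Fam), (∀ j, (F j).Dense D) →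
    ∀ (σ : Type) [Fintype σ] (ε : ℝ), 0 < ε → ∃ N₀ : ℕ, ∀ N : Fin k → ℕ, (∀ j, N₀ ≤ N j) →
    ∀ t : σ → ℂ, NoRel QB D t → ∀ s : ∀ j, (F j).S,
      (((Fintype.piFinset fun j => (F j).Ω (N j)).filter fun x => (∀ j, (F j).good (x j)) ∧
        ¬ NoRel QB D (Sum.elim t fun z : Σ j, (F j).M => (F z.1).L (s z.1) (x z.1) z.2)).card : ℝ) ≤
      ε * ∏ j, (((F j).Ω (N j)).card : ℝ) := by
  induction k with
  | zero =>
    intro F _ σ _ ε hε
    refine ⟨0, fun N _ t ht s => ?_⟩
    rw [Finset.filter_false_of_mem]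
    · simp [hε.le]
    · intro n _
      push Not
      intro _
      rw [← NoRel.reindex_iff (Equiv.sumEmpty σ (Σ j : Fin 0, (F j).M)).symm]
      exact ht
  | succ k ih =>
    intro F hF σ _ ε hε
    obtain ⟨N₁, hN₁⟩ := hF 0 σ (ε / 2) (by linarith)
    obtain ⟨N₂, hN₂⟩ := ih (fun j => F j.succ) (fun j => hF j.succ) (σ ⊕ (F 0).M) (ε / 2) (by linarith)
    refine ⟨max N₁ N₂, fun N hN t ht s => ?_⟩
    set bad : (∀ j, (F j).X) → Prop := fun x => (∀ j, (F j).good (x j)) ∧
        ¬ NoRel QB D (Sum.elim t fun z : Σ j, (F j).M => (F z.1).L (s z.1) (x z.1) z.2) with hbad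
    set B := (Fintype.piFinset fun j => (F j).Ω (N j)).filter bad with hB
    set A := ((F 0).Ω (N 0)).filter (fun x => (F 0).good x ∧
      ¬ NoRel QB D (Sum.elim t ((F 0).L (s 0) x))) with hA
    have hAcard : (A.card : ℝ) ≤ ε / 2 * ((F 0).Ω (N 0)).card :=
      hN₁ (N 0) ((le_max_left _ _).trans (hN 0)) t ht (s 0)
    set Z : ℝ := ∏ j : Fin k, (((F j.succ).Ω (N j.succ)).card : ℝ) with hZ
    have hZ0 : 0 ≤ Z := Finset.prod_nonneg fun _ _ => Nat.cast_nonneg _
    have hfib : B.card = ∑ a ∈ (F 0).Ω (N 0), (B.filter (fun n => n 0 = a)).card := by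
      apply Finset.card_eq_sum_card_fiberwise
      intro n hn
      have hn' : n ∈ B := hn
      rw [hB, Finset.mem_filter, Fintype.mem_piFinset] at hn'
      exact hn'.1 0
    set Ps : Finset (∀ j : Fin k, (F j.succ).X) :=
      Fintype.piFinset fun j : Fin k => (F j.succ).Ω (N j.succ) with hPs
    have hPc : (Ps.card : ℝ) = Z := by
      rw [hPs, Fintype.card_piFinset, hZ]
      push_cast
      rfl
    have hle : ∀ a, (B.filter (fun n => n 0 = a)).card ≤
        (Ps.filter (fun m => bad (Fin.cons a m))).card := by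
      intro a
      apply Finset.card_le_card_of_injOn (fun n => Fin.tail n)
      · intro n hn
        have hn' : n ∈ B.filter (fun n => n 0 = a) := hn
        rw [Finset.mem_filter, hB, Finset.mem_filter, Fintype.mem_piFinset] at hn'
        have hcons : (Fin.cons a (Fin.tail n) : ∀ j, (F j).X) = n := by
          rw [← hn'.2]; exact Fin.cons_self_tail n
        show Fin.tail n ∈ _
        rw [Finset.mem_coe, Finset.mem_filter, hPs, Fintype.mem_piFinset]
        refine ⟨fun j => hn'.1.1 j.succ, ?_⟩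
        rw [hcons]
        exact hn'.1.2
      · intro n hn m hm h
        have hn' : n ∈ B.filter (fun n => n 0 = a) := hn
        have hm' : m ∈ B.filter (fun n => n 0 = a) := hm
        rw [Finset.mem_filter] at hn' hm'
        rw [← Fin.cons_self_tail n, ← Fin.cons_self_tail m, hn'.2, hm'.2]
        have : Fin.tail n = Fin.tail m := h
        rw [this]
    have hgood : ∀ a ∈ (F 0).Ω (N 0), a ∉ A →
        ((Ps.filter (fun m => bad (Fin.cons a m))).card : ℝ) ≤ ε / 2 * Z := by
      intro a ha haA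
      by_cases h0 : (F 0).good a
      · have hta : NoRel QB D (Sum.elim t ((F 0).L (s 0) a)) := by
          by_contra hcon
          apply haA
          rw [hA, Finset.mem_filter]
          exact ⟨ha, h0, hcon⟩
        have h1 := hN₂ (fun j => N j.succ) (fun j => (le_max_right _ _).trans (hN j.succ)) _
          hta (fun j => s j.succ)
        refine le_trans ?_ h1
        have h2 : Ps.filter (fun m => bad (Fin.cons a m)) ⊆
            Ps.filter fun x => (∀ j : Fin k, (F j.succ).good (x j)) ∧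
              ¬ NoRel QB D (Sum.elim (Sum.elim t ((F 0).L (s 0) a))
                fun z : Σ j : Fin k, (F j.succ).M => (F z.1.succ).L (s z.1.succ) (x z.1) z.2) := by
          intro m hm
          rw [Finset.mem_filter] at hm ⊢
          refine ⟨hm.1, fun j => hm.2.1 j.succ, ?_⟩
          intro hno
          apply hm.2.2
          rw [← NoRel.reindex_iff (tupEquiv σ k (fun j => (F j).M))]
          have : (Sum.elim t fun z : Σ j, (F j).M => (F z.1).L (s z.1)
              ((Fin.cons a m : ∀ j, (F j).X) z.1) z.2) ∘ tupEquiv σ k (fun j => (F j).M) =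
              Sum.elim (Sum.elim t ((F 0).L (s 0) a))
                fun z : Σ j : Fin k, (F j.succ).M => (F z.1.succ).L (s z.1.succ) (m z.1) z.2 := by
            funext u
            rcases u with (i | c) | ⟨j, c⟩ <;> simp [tupEquiv]
          rw [this]
          exact hno
        exact Nat.cast_le.2 (Finset.card_le_card h2)
      · rw [Finset.filter_false_of_mem]
        · rw [Finset.card_empty, Nat.cast_zero]
          exact mul_nonneg (by linarith) hZ0
        · intro m _ hm
          exact h0 (hm.1 0)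
    have htriv : ∀ a, ((Ps.filter (fun m => bad (Fin.cons a m))).card : ℝ) ≤ Z := by
      intro a
      rw [← hPc]
      exact Nat.cast_le.2 (Finset.card_filter_le _ _)
    have hAsub : A ⊆ (F 0).Ω (N 0) := Finset.filter_subset _ _
    have h1 := sum_split ((F 0).Ω (N 0)) A hAsub
      (fun a => ((B.filter (fun n => n 0 = a)).card : ℝ)) Z (ε / 2 * Z)
      (fun a _ => (Nat.cast_le.2 (hle a)).trans (htriv a))
      (fun a ha haA => (Nat.cast_le.2 (hle a)).trans (hgood a ha haA))
      (mul_nonneg (by linarith) hZ0) hZ0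
    have h2 : (B.card : ℝ) = ∑ a ∈ (F 0).Ω (N 0), ((B.filter (fun n => n 0 = a)).card : ℝ) := by
      rw [hfib, Nat.cast_sum]
    have h3 : ∏ j : Fin (k + 1), (((F j).Ω (N j)).card : ℝ) = ((F 0).Ω (N 0)).card * Z :=
      Fin.prod_univ_succ _
    rw [h3, h2]
    refine h1.trans ?_
    have h4 : (A.card : ℝ) * Z ≤ (ε / 2 * ((F 0).Ω (N 0)).card) * Z :=
      mul_le_mul_of_nonneg_right hAcard hZ0
    calc (A.card : ℝ) * Z + ((F 0).Ω (N 0)).card * (ε / 2 * Z)
        ≤ (ε / 2 * ((F 0).Ω (N 0)).card) * Z + ((F 0).Ω (N 0)).card * (ε / 2 * Z) :=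
          add_le_add h4 le_rfl
      _ = ε * (((F 0).Ω (N 0)).card * Z) := by ring

end Pool.Agent.H443.NF
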