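import Mathlib
import Pool.Agent.H443.NF.Cub
import Pool.Graph.R_pool_sql_team_seeded_5cf16337.K3h28.NF.VHyp
import Pool.Graph.R_pool_sql_team_seeded_5cf16337.K3h28.NF.Shift
import Pool.Agent.H443.NF.Tup

/-!
# Logarithms of the conjugates of almost all integers of a number field
-/

set_option autoImplicit false

namespace Pool.Agent.H443.NF

open NumberField IsDedekindDomain Finset
open Pool.Agent.H301R2.SSE (QB mem_QB)
open Pool.Agent.H297R2 (NoRel)

variable (K : Type) [Field K] [NumberField K]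

theorem sum_subspace {R : ℕ} {η : Type} [Fintype η] [DecidableEq η]
    (l : Combinatorics.Subspace η Bool (Fin R)) (S : Finset η) (w : Fin R → ℂ) :
    ∑ i ∈ univ.filter (fun i => l (fun e => decide (e ∈ S)) i = true), w i =
      ∑ i ∈ univ.filter (fun i => l.idxFun i = Sum.inl true), w i +
        ∑ e ∈ S, ∑ i ∈ univ.filter (fun i => l.idxFun i = Sum.inr e), w i := by
  classical
  simp only [Finset.sum_filter]
  rw [Finset.sum_comm, ← Finset.sum_add_distrib]
  refine Finset.sum_congr rfl fun i _ => ?_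
  rw [Combinatorics.Subspace.apply_def]
  rcases h : l.idxFun i with (_ | _) | e
  · simp
  · simp
  · simp

theorem indep_blocks {R : ℕ} {η M : Type} [Fintype η] [DecidableEq η] [Fintype M]
    (l : Combinatorics.Subspace η Bool (Fin R)) (w : Fin R → M → ℂ)
    (hw : LinearIndependent ℚ (fun p : Fin R × M => w p.1 p.2)) :
    LinearIndependent ℚ (fun p : η × M =>
      ∑ i ∈ univ.filter (fun i => l.idxFun i = Sum.inr p.1), w i p.2) := by
  classical
  rw [Fintype.linearIndependent_iff] at hw ⊢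
  intro g hg
  set G : Fin R × M → ℚ := fun p => ∑ e, (if l.idxFun p.1 = Sum.inr e then g (e, p.2) else 0) with hG
  have h1 : ∑ p : Fin R × M, G p • w p.1 p.2 = 0 := by
    rw [← hg, Fintype.sum_prod_type, Fintype.sum_prod_type, Finset.sum_comm,
      Finset.sum_comm (s := (univ : Finset η))]
    refine Finset.sum_congr rfl fun m _ => ?_
    simp only [hG, Finset.smul_sum, Finset.sum_smul, Finset.sum_filter]
    rw [Finset.sum_comm]
    refine Finset.sum_congr rfl fun e _ => Finset.sum_congr rfl fun i _ => ?_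
    split_ifs <;> simp
  have h2 := hw G h1
  rintro ⟨e, m⟩
  obtain ⟨i, hi⟩ := l.proper e
  have h3 := h2 (i, m)
  simp only [hG, hi, Sum.inr.injEq] at h3
  rw [Finset.sum_eq_single e] at h3
  · simpa using h3
  · intro e' _ he'
    rw [if_neg (fun h => he' h.symm)]
  · intro h
    exact absurd (Finset.mem_univ _) h

/-- comparison of principal logarithms -/
theorem log_shift (a b W : ℂ) (ha : a ≠ 0) (hb : b ≠ 0) (h : a = b * Complex.exp W)
    (hW : |W.im| ≤ 1) : ∃ k : Fin 3, Complex.log a = Complex.log b + W +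
      (((k : ℕ) : ℤ) - 1 : ℤ) * (2 * Real.pi * Complex.I) := by
  have h1 : Complex.exp (Complex.log a) = Complex.exp (Complex.log b + W) := by
    rw [Complex.exp_log ha, Complex.exp_add, Complex.exp_log hb, h]
  obtain ⟨k, hk⟩ := Complex.exp_eq_exp_iff_exists_int.1 h1
  have h2 := congrArg Complex.im hk
  have h3 : ((k : ℂ) * (2 * Real.pi * Complex.I)).im = k * (2 * Real.pi) := by
    have : (k : ℂ) * (2 * Real.pi * Complex.I) = ((k * (2 * Real.pi) : ℝ) : ℂ) * Complex.I := by
      push_cast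
      ring
    rw [this, Complex.im_ofReal_mul, Complex.I_im, mul_one]
  rw [Complex.add_im, Complex.add_im, h3, Complex.log_im, Complex.log_im] at h2
  have h4 := Complex.neg_pi_lt_arg a
  have h5 := Complex.arg_le_pi a
  have h6 := Complex.neg_pi_lt_arg b
  have h7 := Complex.arg_le_pi b
  have hpi := Real.pi_gt_three
  obtain ⟨h8, h9⟩ := abs_le.1 hW
  have hk1 : (k : ℝ) < 2 := by
    by_contra hcon
    push Not at hcon
    nlinarith
  have hk2 : (-2 : ℝ) < k := by
    by_contra hcon
    push Not at hcon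
    nlinarith
  have hk3 : k < 2 := by exact_mod_cast hk1
  have hk4 : -2 < k := by exact_mod_cast hk2
  refine ⟨⟨(k + 1).toNat, by omega⟩, ?_⟩
  have h10 : ((((k + 1).toNat : ℕ) : ℤ) - 1) = k := by omega
  simp only [h10]
  exact hk

open Classical in
/-- **One variable.** -/
theorem density_one (σ : Type) [Fintype σ] (D : ℕ) (ε : ℝ) (hε : 0 < ε) : ∃ x₀ : ℕ, ∀ x ≥ x₀,
    ∀ t : σ → ℂ, NoRel QB D t → ∀ s : (K →+* ℂ) → ℂ,
      (((Om K x).filter fun α : 𝓞 K => α ≠ 0 ∧
        ¬ NoRel QB D (Sum.elim t fun ρ : K →+* ℂ => Complex.log (ρ (α : K)) + s ρ)).card : ℝ) ≤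
          ε * (Om K x).card := by
  classical
  obtain ⟨r, hr⟩ := Pool.Agent.K3h28.NF.cube_logs σ (K →+* ℂ) D
  obtain ⟨R, hR⟩ := Combinatorics.Subspace.exists_mono_in_high_dimension_fin Bool
    ((K →+* ℂ) → Fin 3) (Fin r)
  obtain ⟨J, hJ⟩ := cube K (1 / ((R : ℝ) + 1)) (by positivity)
  obtain ⟨Y, hY⟩ := log_indep K
  obtain ⟨x₀, hx₀⟩ := hJ R ε hε Y
  refine ⟨x₀, fun x hx t ht s => ?_⟩
  by_contra hcon
  push Not at hcon
  obtain ⟨a, v, w, ξ, ζ, h1, h2, h3, h4, h5, h6, harg, h7⟩ :=
    hx₀ x hx _ (Finset.filter_subset _ _) hcon.le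
  -- all the numbers are nonzero
  choose α hα hα' using h7
  have hα0 : ∀ S, (α S : K) ≠ 0 := fun S h =>
    (Finset.mem_filter.1 (hα S)).2.1 (RingOfIntegers.coe_injective h)
  have hξ0 : ∀ i (ρ : K →+* ℂ), ρ (ξ i) ≠ 0 := fun i ρ => by
    rw [Ne, map_eq_zero]
    exact (h1 i).1
  have hζ0 : ∀ i (ρ : K →+* ℂ), ρ (ζ i) ≠ 0 := fun i ρ => by
    rw [Ne, map_eq_zero]
    exact (h2 i).1
  set w' : Fin R → (K →+* ℂ) → ℂ := fun i ρ => Complex.log (ρ (ζ i)) - Complex.log (ρ (ξ i)) with hw'
  have hexp : ∀ i ρ, Complex.exp (w' i ρ) = ρ (ζ i / ξ i) := by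
    intro i ρ
    simp only [hw']
    rw [Complex.exp_sub, Complex.exp_log (hζ0 i ρ), Complex.exp_log (hξ0 i ρ), map_div₀]
  have him : ∀ i ρ, |(w' i ρ).im| ≤ 1 / ((R : ℝ) + 1) := by
    intro i ρ
    simp only [hw']
    rw [Complex.sub_im, Complex.log_im, Complex.log_im]
    exact (harg i ρ).le
  have hli := hY R v w (fun i => ζ i / ξ i) (fun i => (h1 i).rto (h2 i)) h3
    (fun i => (h4 i).2) h5 h6 w' hexp
  have halg : ∀ i ρ, IsAlgebraic ℚ (Complex.exp (w' i ρ)) := by
    intro i ρ
    rw [hexp]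
    have h8 : IsAlgebraic ℚ (ζ i / ξ i) := Algebra.IsAlgebraic.isAlgebraic _
    exact h8.algHom ρ.toRatAlgHom
  -- comparison with the vertex `∅`
  have hcmp : ∀ (S : Finset (Fin R)) (ρ : K →+* ℂ), ∃ k : Fin 3, Complex.log (ρ (α S : K)) =
      Complex.log (ρ (α ∅ : K)) + ∑ i ∈ S, w' i ρ +
        (((k : ℕ) : ℤ) - 1 : ℤ) * (2 * Real.pi * Complex.I) := by
    intro S ρ
    apply log_shift
    · rw [Ne, map_eq_zero]; exact hα0 S
    · rw [Ne, map_eq_zero]; exact hα0 ∅
    · rw [hα' S, hα' ∅, map_mul, map_mul, mul_assoc]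
      congr 1
      rw [map_prod, map_prod, Complex.exp_sum]
      have h12 : ∏ i ∈ S, Complex.exp (w' i ρ) =
          ∏ i, (if i ∈ S then Complex.exp (w' i ρ) else 1) := by
        rw [Finset.prod_ite_mem, Finset.univ_inter]
      rw [h12, ← Finset.prod_mul_distrib]
      refine Finset.prod_congr rfl fun i _ => ?_
      have h13 := hξ0 i ρ
      rw [if_neg (Finset.notMem_empty i)]
      split_ifs
      · rw [hexp, map_div₀]
        field_simp
      · rw [mul_one]
    · rw [Complex.im_sum]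
      calc |∑ i ∈ S, (w' i ρ).im| ≤ ∑ i ∈ S, |(w' i ρ).im| := Finset.abs_sum_le_sum_abs _ _
        _ ≤ ∑ _i ∈ S, 1 / ((R : ℝ) + 1) := Finset.sum_le_sum fun i _ => him i ρ
        _ = S.card * (1 / ((R : ℝ) + 1)) := by rw [Finset.sum_const, nsmul_eq_mul]
        _ ≤ 1 := by
          rw [mul_one_div, div_le_one (by positivity)]
          have h13 : S.card ≤ R := by simpa using Finset.card_le_univ S
          have h14 : (S.card : ℝ) ≤ R := by exact_mod_cast h13
          linarith
  choose k hk using hcmp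
  obtain ⟨l, c, hc⟩ := hR (fun z ρ => k (univ.filter (fun i => z i = true)) ρ)
  set W : Fin r → (K →+* ℂ) → ℂ := fun e ρ =>
    ∑ i ∈ univ.filter (fun i => l.idxFun i = Sum.inr e), w' i ρ with hW
  have hWli : LinearIndependent ℚ (fun p : Fin r × (K →+* ℂ) => W p.1 p.2) := indep_blocks l w' hli
  have hWalg : ∀ e ρ, IsAlgebraic ℚ (Complex.exp (W e ρ)) := by
    intro e ρ
    simp only [hW]
    rw [Complex.exp_sum, ← mem_algebraicClosure_iff]
    exact prod_mem fun i _ => mem_algebraicClosure_iff.2 (halg i ρ)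
  set v₀ : (K →+* ℂ) → ℂ := fun ρ => Complex.log (ρ (α ∅ : K)) +
    ∑ i ∈ univ.filter (fun i => l.idxFun i = Sum.inl true), w' i ρ +
      (((c ρ : ℕ) : ℤ) - 1 : ℤ) * (2 * Real.pi * Complex.I) + s ρ with hv₀
  obtain ⟨S, hS⟩ := hr t ht v₀ W hWalg hWli
  set z : Fin r → Bool := fun e => decide (e ∈ S) with hz
  have h8 := (Finset.mem_filter.1 (hα (univ.filter (fun i => l z i = true)))).2.2
  apply h8
  have h9 : (fun ρ : K →+* ℂ => Complex.log (ρ (α (univ.filter (fun i => l z i = true)) : K)) + s ρ) =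
      fun ρ => v₀ ρ + ∑ e ∈ S, W e ρ := by
    funext ρ
    have h10 : k (univ.filter (fun i => l z i = true)) ρ = c ρ := congrFun (hc z) ρ
    rw [hk, h10, sum_subspace l S (fun i => w' i ρ)]
    simp only [hv₀, hW]
    ring
  rw [h9]
  exact hS

open Classical in
/-- **One variable, with an arbitrary basis.** -/
theorem density_basis {ι : Type} [Fintype ι] (b : Module.Basis ι ℚ K) (σ : Type) [Fintype σ] (D : ℕ)
    (ε : ℝ) (hε : 0 < ε) : ∃ N₀ : ℕ, ∀ N ≥ N₀,
    ∀ t : σ → ℂ, NoRel QB D t → ∀ s : (K →+* ℂ) → ℂ,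
      (((Fintype.piFinset fun _ : ι => Finset.Icc (-(N : ℤ)) N).filter fun x => x ≠ 0 ∧
        ¬ NoRel QB D (Sum.elim t fun ρ : K →+* ℂ =>
          Complex.log (ρ (∑ i, (x i : K) * b i)) + s ρ)).card : ℝ) ≤
          ε * (Fintype.piFinset fun _ : ι => Finset.Icc (-(N : ℤ)) N).card := by
  classical
  -- an integral multiple of the basis
  have hZK : Algebra.IsAlgebraic ℤ K :=
    (IsFractionRing.comap_isAlgebraic_iff (A := ℤ) (K := ℚ) (C := K)).2 inferInstance
  obtain ⟨y, hy0, hy⟩ := Algebra.IsAlgebraic.exists_integral_multiples ℤ (univ.image b)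
  set M : ℕ := y.natAbs with hM
  have hM0 : M ≠ 0 := Int.natAbs_ne_zero.2 hy0
  have hint : ∀ i, IsIntegral ℤ ((M : K) * b i) := by
    intro i
    have h1 := hy (b i) (Finset.mem_image_of_mem _ (Finset.mem_univ i))
    rw [zsmul_eq_mul] at h1
    rcases Int.natAbs_eq y with h2 | h2
    · rw [h2] at h1
      simpa [hM] using h1
    · rw [h2] at h1
      have h3 := h1.neg
      simpa [hM] using h3
  let β : ι → 𝓞 K := fun i => ⟨(M : K) * b i, hint i⟩
  have hβ : ∀ i, (β i : K) = (M : K) * b i := fun i => rfl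
  set n := Module.finrank ℚ K with hn
  have hnι : Fintype.card ι = n := (Module.finrank_eq_card_basis b).symm
  set c : ℕ := 1 + ∑ i, ∑ j, ((RingOfIntegers.basis K).repr (β i) j).natAbs with hc
  have hcR : (1 : ℝ) ≤ c := by
    rw [hc]
    push_cast
    have : (0 : ℝ) ≤ ∑ i, ∑ j, (((RingOfIntegers.basis K).repr (β i) j).natAbs : ℝ) := by positivity
    linarith
  have hc0 : (0 : ℝ) < (c : ℝ) ^ n := by positivity
  obtain ⟨x₀, hx₀⟩ := density_one K σ D (ε / (c : ℝ) ^ n) (by positivity)
  refine ⟨x₀, fun N hN t ht s => ?_⟩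
  set s' : (K →+* ℂ) → ℂ := fun ρ => s ρ - Real.log M with hs'
  have h1 := hx₀ (c * N) (by
    have : 1 ≤ c := by omega
    nlinarith) t ht s'
  set f : (ι → ℤ) → 𝓞 K := fun x => ∑ i, (x i : 𝓞 K) * β i with hf
  have hfK : ∀ x, (f x : K) = (M : K) * ∑ i, (x i : K) * b i := by
    intro x
    show algebraMap (𝓞 K) K (∑ i, (x i : 𝓞 K) * β i) = _
    rw [map_sum, Finset.mul_sum]
    refine Finset.sum_congr rfl fun i _ => ?_
    rw [map_mul, map_intCast]
    show (x i : K) * ((M : K) * b i) = _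
    ring
  have hMK : (M : K) ≠ 0 := by exact_mod_cast hM0
  have hinj : Function.Injective f := by
    intro x z h
    have h2 : ∑ i, (x i : K) * b i = ∑ i, (z i : K) * b i := by
      have h3 : (f x : K) = (f z : K) := by rw [h]
      rw [hfK, hfK] at h3
      exact mul_left_cancel₀ hMK h3
    have h4 : ∑ i, ((x i : ℚ) - z i) • b i = 0 := by
      have h5 : ∀ i, ((x i : ℚ) - z i) • b i = (x i : K) * b i - (z i : K) * b i := by
        intro i
        rw [Algebra.smul_def]
        simp [sub_mul]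
      simp only [h5]
      rw [Finset.sum_sub_distrib, h2, sub_self]
    have h6 := Fintype.linearIndependent_iff.1 b.linearIndependent _ h4
    funext i
    have h7 := h6 i
    rw [sub_eq_zero] at h7
    exact_mod_cast h7
  have hbox : ∀ x ∈ Fintype.piFinset fun _ : ι => Finset.Icc (-(N : ℤ)) N, f x ∈ Om K (c * N) := by
    intro x hx
    rw [Fintype.mem_piFinset] at hx
    rw [mem_Om]
    intro j
    have h2 : (RingOfIntegers.basis K).repr (f x) j =
        ∑ i, x i * (RingOfIntegers.basis K).repr (β i) j := by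
      simp only [hf]
      rw [map_sum, Finsupp.finsetSum_apply]
      refine Finset.sum_congr rfl fun i _ => ?_
      rw [← zsmul_eq_mul, map_zsmul, Finsupp.smul_apply, smul_eq_mul]
    rw [h2]
    calc |∑ i, x i * (RingOfIntegers.basis K).repr (β i) j|
        ≤ ∑ i, |x i * (RingOfIntegers.basis K).repr (β i) j| := Finset.abs_sum_le_sum_abs _ _
      _ ≤ ∑ i, (N : ℤ) * ((RingOfIntegers.basis K).repr (β i) j).natAbs := by
          refine Finset.sum_le_sum fun i _ => ?_
          rw [abs_mul, Int.abs_eq_natAbs ((RingOfIntegers.basis K).repr (β i) j)]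
          exact mul_le_mul_of_nonneg_right (abs_le.2 (Finset.mem_Icc.1 (hx i))) (by positivity)
      _ ≤ ((c * N : ℕ) : ℤ) := by
          rw [← Finset.mul_sum]
          push_cast
          rw [mul_comm (c : ℤ)]
          apply mul_le_mul_of_nonneg_left _ (by positivity)
          have h3 : ∑ i, (((RingOfIntegers.basis K).repr (β i) j).natAbs : ℤ) ≤
              ∑ i, ∑ j, (((RingOfIntegers.basis K).repr (β i) j).natAbs : ℤ) := by
            refine Finset.sum_le_sum fun i _ => ?_
            exact Finset.single_le_sum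
              (f := fun j => (((RingOfIntegers.basis K).repr (β i) j).natAbs : ℤ))
              (fun _ _ => by positivity) (Finset.mem_univ j)
          rw [hc]
          push_cast at h3 ⊢
          linarith
  have h2 : ((Fintype.piFinset fun _ : ι => Finset.Icc (-(N : ℤ)) N).filter fun x => x ≠ 0 ∧
        ¬ NoRel QB D (Sum.elim t fun ρ : K →+* ℂ =>
          Complex.log (ρ (∑ i, (x i : K) * b i)) + s ρ)).card ≤
      ((Om K (c * N)).filter fun α : 𝓞 K => α ≠ 0 ∧
        ¬ NoRel QB D (Sum.elim t fun ρ : K →+* ℂ => Complex.log (ρ (α : K)) + s' ρ)).card := by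
    apply Finset.card_le_card_of_injOn f
    · intro x hx
      have hx' := Finset.mem_filter.1 (Finset.mem_coe.1 hx)
      rw [Finset.mem_coe, Finset.mem_filter]
      refine ⟨hbox x hx'.1, ?_, ?_⟩
      · intro h
        apply hx'.2.1
        apply hinj
        rw [h]
        simp [hf]
      · intro hno
        apply hx'.2.2
        have h3 : (fun ρ : K →+* ℂ => Complex.log (ρ (∑ i, (x i : K) * b i)) + s ρ) =
            fun ρ => Complex.log (ρ (f x : K)) + s' ρ := by
          funext ρ
          have h4 : ρ (f x : K) = ((M : ℝ) : ℂ) * ρ (∑ i, (x i : K) * b i) := by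
            rw [hfK, map_mul, map_natCast]
            norm_cast
          have h5 : ρ (∑ i, (x i : K) * b i) ≠ 0 := by
            rw [Ne, map_eq_zero]
            intro h
            apply hx'.2.1
            apply hinj
            apply RingOfIntegers.coe_injective
            show (f x : K) = (f 0 : K)
            rw [hfK, hfK, h]
            simp
          have h6 : (0 : ℝ) < M := by exact_mod_cast Nat.pos_of_ne_zero hM0
          rw [h4, Complex.log_ofReal_mul h6 h5]
          simp only [hs']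
          ring
        rw [h3]
        exact hno
    · exact hinj.injOn
  have h3 : ((Om K (c * N)).card : ℝ) ≤ (c : ℝ) ^ n *
      (Fintype.piFinset fun _ : ι => Finset.Icc (-(N : ℤ)) N).card := by
    rw [card_Om, Fintype.card_piFinset]
    simp only [Int.card_Icc, Finset.prod_const, Finset.card_univ]
    rw [hnι, ← hn]
    have h4 : ((N : ℤ) + 1 - -(N : ℤ)).toNat = 2 * N + 1 := by omega
    rw [h4]
    push_cast
    rw [← mul_pow]
    apply pow_le_pow_left₀ (by positivity)
    nlinarith [(Nat.cast_nonneg N : (0 : ℝ) ≤ N)]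
  refine (Nat.cast_le.2 h2).trans (h1.trans ?_)
  calc ε / (c : ℝ) ^ n * ((Om K (c * N)).card : ℝ) ≤ ε / (c : ℝ) ^ n * ((c : ℝ) ^ n *
      (Fintype.piFinset fun _ : ι => Finset.Icc (-(N : ℤ)) N).card) :=
        mul_le_mul_of_nonneg_left h3 (by positivity)
    _ = ε * (Fintype.piFinset fun _ : ι => Finset.Icc (-(N : ℤ)) N).card := by
        field_simp

end Pool.Agent.H443.NF
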