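import Mathlib
import Pool.Agent.H443.NF.Den

/-!
# The logarithms of all conjugates of almost all algebraic integers
-/

set_option autoImplicit false

namespace Pool.Agent.H443.NF

open NumberField Finset
open Pool.Agent.H301R2.SSE (QB mem_QB)
open Pool.Agent.H297R2 (NoRel)

/-- membership in a filtered set, for any decidability instance -/
theorem mem_filt {α : Type*} {p : α → Prop} {inst : DecidablePred p} {s : Finset α} {a : α} :
    a ∈ @Finset.filter α p inst s ↔ a ∈ s ∧ p a := Finset.mem_filter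

open Classical in
theorem main (k l D : ℕ) (K : Fin k → Type) [∀ j, Field (K j)] [∀ j, NumberField (K j)]
    (ι : Fin k → Type) [∀ j, Fintype (ι j)] (b : ∀ j, Module.Basis (ι j) ℚ (K j))
    (C ε : ℝ) (hε : 0 < ε) :
    ∃ N₀ : ℕ, ∀ N : Fin k → ℕ, (∀ j, N₀ ≤ N j) → ∀ t : Fin l → ℂ, NoRel QB D t →
      (((Fintype.piFinset fun j => Fintype.piFinset fun _ : ι j =>
          Finset.Icc (-(N j : ℤ)) (N j)).filter fun x =>
        (∀ j, x j ≠ 0) ∧ ∃ L : (Σ j : Fin k, (K j →+* ℂ)) → ℂ,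
          (∀ z, Complex.exp (L z) = z.2 (∑ i, (x z.1 i : K z.1) * b z.1 i)) ∧
          ((∃ i, t i = 2 * Real.pi * Complex.I) ∨ ∀ z, |(L z).im| ≤ C) ∧
          ¬ NoRel QB D (Sum.elim t L)).card : ℝ) ≤
      ε * ∏ j, (2 * (N j : ℝ) + 1) ^ Module.finrank ℚ (K j) := by
  classical
  let F : Fin k → Fam := fun j =>
    { X := ι j → ℤ
      M := K j →+* ℂ
      instM := inferInstance
      S := (K j →+* ℂ) → ℂ
      Ω := fun N => Fintype.piFinset fun _ : ι j => Finset.Icc (-(N : ℤ)) N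
      good := fun x => x ≠ 0
      L := fun s x ρ => Complex.log (ρ (∑ i, (x i : K j) * b j i)) + s ρ }
  have hF : ∀ j, (F j).Dense D := by
    intro j σ _ ε hε
    obtain ⟨N₀, hN₀⟩ := density_basis (K j) (b j) σ D ε hε
    refine ⟨N₀, fun N hN t ht s => ?_⟩
    refine le_trans (Nat.cast_le.2 (Finset.card_le_card ?_)) (hN₀ N hN t ht s)
    intro x hx
    exact mem_filt.2 (mem_filt.1 hx)
  -- the possible determinations
  set B : ℕ := ⌈(|C| + Real.pi) / (2 * Real.pi)⌉₊ with hB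
  set Z : Type := (Σ j : Fin k, (K j →+* ℂ)) with hZ
  set Ks : Finset (Z → ℤ) := Fintype.piFinset fun _ : Z => Finset.Icc (-(B : ℤ)) B with hKs
  have hKs0 : (0 : Z → ℤ) ∈ Ks := by
    rw [hKs, Fintype.mem_piFinset]
    intro z
    rw [Finset.mem_Icc]
    simp
  have hc : (0 : ℝ) < Ks.card := by exact_mod_cast Finset.card_pos.2 ⟨_, hKs0⟩
  obtain ⟨N₀, hN₀⟩ := tuples D k F hF (Fin l) (ε / Ks.card) (by positivity)
  refine ⟨N₀, fun N hN t ht => ?_⟩
  set V : ℝ := ∏ j, (2 * (N j : ℝ) + 1) ^ Module.finrank ℚ (K j) with hV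
  have hV0 : 0 ≤ V := by positivity
  have h2 : ∏ j, (((F j).Ω (N j)).card : ℝ) = V := by
    refine Finset.prod_congr rfl fun j _ => ?_
    show ((Fintype.piFinset fun _ : ι j => Finset.Icc (-(N j : ℤ)) (N j)).card : ℝ) = _
    rw [Fintype.card_piFinset]
    simp only [Int.card_Icc, Finset.prod_const, Finset.card_univ]
    rw [← Module.finrank_eq_card_basis (b j)]
    have h4 : ((N j : ℤ) + 1 - -(N j : ℤ)).toNat = 2 * N j + 1 := by omega
    rw [h4]
    push_cast
    rfl
  -- the exceptional sets for given determinations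
  set pi2 : ℂ := 2 * Real.pi * Complex.I with hpi2
  set Bd : (Z → ℤ) → Finset (∀ j, (F j).X) := fun m =>
    (Fintype.piFinset fun j => (F j).Ω (N j)).filter fun x => (∀ j, (F j).good (x j)) ∧
        ¬ NoRel QB D (Sum.elim t fun z : Σ j, (F j).M =>
          (F z.1).L (fun ρ => (m ⟨z.1, ρ⟩ : ℂ) * pi2) (x z.1) z.2) with hBd
  have hBdc : ∀ m, ((Bd m).card : ℝ) ≤ ε / Ks.card * V := by
    intro m
    have h3 := hN₀ N hN t ht (fun j ρ => (m ⟨j, ρ⟩ : ℂ) * pi2)
    rw [h2] at h3
    refine le_trans (Nat.cast_le.2 (Finset.card_le_card ?_)) h3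
    intro x hx
    exact mem_filt.2 (mem_filt.1 hx)
  -- the determinations
  have hk : ∀ (x : ∀ j, ι j → ℤ) (L : Z → ℂ),
      (∀ z, Complex.exp (L z) = z.2 (∑ i, (x z.1 i : K z.1) * b z.1 i)) →
      ∃ m : Z → ℤ, ∀ z, L z = Complex.log (z.2 (∑ i, (x z.1 i : K z.1) * b z.1 i)) + m z * pi2 := by
    intro x L hL
    have h5 : ∀ z, ∃ m : ℤ, L z = Complex.log (z.2 (∑ i, (x z.1 i : K z.1) * b z.1 i)) + m * pi2 := by
      intro z
      have h3 : z.2 (∑ i, (x z.1 i : K z.1) * b z.1 i) ≠ 0 := by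
        rw [← hL z]
        exact Complex.exp_ne_zero _
      have h4 : Complex.exp (L z) =
          Complex.exp (Complex.log (z.2 (∑ i, (x z.1 i : K z.1) * b z.1 i))) := by
        rw [hL z, Complex.exp_log h3]
      exact Complex.exp_eq_exp_iff_exists_int.1 h4
    choose m hm using h5
    exact ⟨m, hm⟩
  have hsub : ∀ x : (∀ j, ι j → ℤ), x ∈ ((Fintype.piFinset fun j => Fintype.piFinset fun _ : ι j =>
          Finset.Icc (-(N j : ℤ)) (N j)).filter fun x =>
        (∀ j, x j ≠ 0) ∧ ∃ L : Z → ℂ,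
          (∀ z, Complex.exp (L z) = z.2 (∑ i, (x z.1 i : K z.1) * b z.1 i)) ∧
          ((∃ i, t i = pi2) ∨ ∀ z, |(L z).im| ≤ C) ∧
          ¬ NoRel QB D (Sum.elim t L)) → x ∈ Ks.biUnion Bd := by
    intro x hx
    obtain ⟨hx1, hx2, L, hL, hcase, hno⟩ := mem_filt.1 hx
    obtain ⟨m, hm⟩ := hk x L hL
    rw [Finset.mem_biUnion]
    rcases hcase with ⟨i₀, hi₀⟩ | hcase
    · refine ⟨0, hKs0, mem_filt.2 ⟨hx1, hx2, ?_⟩⟩
      intro hyes
      apply hno
      have h5 := Pool.Agent.K3h28.NF.noRel_shift D t i₀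
        (fun z : Z => (F z.1).L (fun ρ => (((0 : Z → ℤ) ⟨z.1, ρ⟩ : ℤ) : ℂ) * pi2) (x z.1) z.2) m hyes
      have h6 : L = fun z => (F z.1).L (fun ρ => (((0 : Z → ℤ) ⟨z.1, ρ⟩ : ℤ) : ℂ) * pi2) (x z.1) z.2 +
          (m z : ℂ) * t i₀ := by
        funext z
        rw [hm z, hi₀]
        show _ = (Complex.log (z.2 (∑ i, (x z.1 i : K z.1) * b z.1 i)) +
          (((0 : Z → ℤ) ⟨z.1, z.2⟩ : ℤ) : ℂ) * pi2) + _
        simp
      rw [h6]
      exact h5
    · refine ⟨m, ?_, mem_filt.2 ⟨hx1, hx2, ?_⟩⟩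
      · rw [hKs, Fintype.mem_piFinset]
        intro z
        rw [Finset.mem_Icc, ← abs_le]
        have h7 := congrArg Complex.im (hm z)
        have h8 : ((m z : ℂ) * pi2).im = m z * (2 * Real.pi) := by
          have : (m z : ℂ) * pi2 = ((m z * (2 * Real.pi) : ℝ) : ℂ) * Complex.I := by
            rw [hpi2]
            push_cast
            ring
          rw [this, Complex.im_ofReal_mul, Complex.I_im, mul_one]
        rw [Complex.add_im, h8, Complex.log_im] at h7
        have h9 := Complex.abs_arg_le_pi (z.2 (∑ i, (x z.1 i : K z.1) * b z.1 i))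
        have h10 : |(m z : ℝ)| * (2 * Real.pi) ≤ |C| + Real.pi := by
          have h11 : (m z : ℝ) * (2 * Real.pi) =
            (L z).im - Complex.arg (z.2 (∑ i, (x z.1 i : K z.1) * b z.1 i)) := by linarith
          have hpi : (0 : ℝ) ≤ 2 * Real.pi := by positivity
          have h14 : |(m z : ℝ)| * (2 * Real.pi) = |(m z : ℝ) * (2 * Real.pi)| := by
            rw [abs_mul, abs_of_nonneg hpi]
          rw [h14, h11]
          refine (abs_sub _ _).trans ?_
          have h12 := hcase z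
          have h13 := le_abs_self C
          linarith
        have h11 : |(m z : ℝ)| ≤ B := by
          refine le_trans ?_ (Nat.le_ceil _)
          rw [le_div_iff₀ (by positivity)]
          exact h10
        exact_mod_cast h11
      · intro hyes
        apply hno
        have h6 : L = fun z : Z => (F z.1).L (fun ρ => (m ⟨z.1, ρ⟩ : ℂ) * pi2) (x z.1) z.2 := by
          funext z
          exact hm z
        rw [h6]
        exact hyes
  have h3 : ((Ks.biUnion Bd).card : ℝ) ≤ ε * V := by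
    have h4 : ((Ks.biUnion Bd).card : ℝ) ≤ ∑ m ∈ Ks, ((Bd m).card : ℝ) := by
      rw [← Nat.cast_sum]
      exact Nat.cast_le.2 Finset.card_biUnion_le
    refine h4.trans ((Finset.sum_le_sum fun m _ => hBdc m).trans ?_)
    rw [Finset.sum_const, nsmul_eq_mul]
    apply le_of_eq
    field_simp
  refine le_trans (Nat.cast_le.2 (Finset.card_le_card ?_)) h3
  intro x hx
  exact hsub x (mem_filt.2 (mem_filt.1 hx))

end Pool.Agent.H443.NF
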